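import Pool.Agent.CG.B.Lip
import Pool.Agent.CG.F.Basic
import Pool.Agent.CG.B.Trf

/-!
# CG-H-Base: minimal structure and global Lipschitz solutions
PLAN.  `minS_of_nrm`: `nrm_min` with `q = 2 + b`, `σ = 1 - a` (for `‖ξ - ζ‖ = 0` both sides vanish).
`GS.left`, `GS.scale`: `Sol.left`, `Sol.scale`, `mp_left` / `map_del` for the a.e. bound
(quasi-measure-preserving), `di_left`, `di_del`.
`GS.hw_top`: `u` is continuous (it is Lipschitz for `di`, `continuous_di`), so bounded on compact sets;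
`F` is a.e. bounded and a.e. strongly measurable on compact sets (from `LqLoc 2`), so both are in
`L^∞` on compact sets.  `exists_gs`: `HW.lip_global` and `HW.congr`.
-/

set_option autoImplicit false

namespace Pool.Agent.CG

open MeasureTheory Set Filter Topology
open scoped ContDiff ENNReal

variable {N m : ℕ}

/-- Minimal structure on the unit ball (power type). -/
structure MinS (q σ c C : ℝ) (A : Hv m → Hv m) : Prop where
  cont : Continuous A
  hq : 2 ≤ q
  hσ : 0 < σ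
  hσ1 : σ ≤ 1
  hc : 0 < c
  hC : 0 ≤ C
  mono : ∀ ξ ζ, ‖ξ‖ ≤ 1 → ‖ζ‖ ≤ 1 → c * ‖ξ - ζ‖ ^ q ≤ inner ℝ (A ξ - A ζ) (ξ - ζ)
  hold : ∀ ξ ζ, ‖ξ‖ ≤ 1 → ‖ζ‖ ≤ 1 → ‖A ξ - A ζ‖ ≤ C * ‖ξ - ζ‖ ^ σ

theorem minS_of_nrm {a b L : ℝ} (ha0 : 0 ≤ a) (ha : a < 1) (hb : 0 ≤ b) (hL : 1 ≤ L)
    {A : Hv m → Hv m} (hA : Nrm a b L A) :
    MinS (2 + b) (1 - a) ((2 : ℝ)⁻¹ ^ b) (L * 2 ^ a) A := by
  obtain ⟨W, hW, hW1, hAA⟩ := hA
  have hN : Nrm a b L A := ⟨W, hW, hW1, hAA⟩
  exact
    { cont := hAA.continuous ha hb (by linarith) hW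
      hq := by linarith
      hσ := by linarith
      hσ1 := by linarith
      hc := by positivity
      hC := by positivity
      mono := fun ξ ζ h1 h2 => (nrm_min ha0 ha hb (by linarith) hN h1 h2).1
      hold := fun ξ ζ h1 h2 => (nrm_min ha0 ha hb (by linarith) hN h1 h2).2 }

/-- Global solutions with `|Xu| ≤ 1`, with their Lipschitz representative. -/
structure GS (G : Carnot N m) (A : Hv m → Hv m) (u : Pt N → ℝ) (F : Pt N → Hv m) : Prop where
  sol : Sol G 2 univ A u F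
  bd : ∀ᵐ x, ‖F x‖ ≤ 1
  lip : ∀ x y, |u x - u y| ≤ G.di x y

theorem GS.left {G : Carnot N m} {A : Hv m → Hv m} {u : Pt N → ℝ} {F : Pt N → Hv m}
    (h : GS G A u F) (g : Pt N) : GS G A (fun x => u (G.mul g x)) (fun x => F (G.mul g x)) := by
  have h1 := h.sol.left g
  have h2 : {x | G.mul g x ∈ (univ : Set (Pt N))} = univ := by simp
  rw [h2] at h1
  refine ⟨h1, ?_, fun x y => ?_⟩
  · exact (G.mp_left g).quasiMeasurePreserving.ae h.bd
  · refine (h.lip _ _).trans ?_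
    rw [G.di_left]

theorem GS.scale {G : Carnot N m} {A : Hv m → Hv m} {u : Pt N → ℝ} {F : Pt N → Hv m}
    (h : GS G A u F) {r : ℝ} (hr : 0 < r) :
    GS G A (fun x => r⁻¹ * u (G.del r x)) (fun x => F (G.del r x)) := by
  have h1 := h.sol.scale hr
  have h2 : {x | G.del r x ∈ (univ : Set (Pt N))} = univ := by simp
  rw [h2] at h1
  refine ⟨h1, ?_, fun x y => ?_⟩
  · have h3 : ∀ᵐ y ∂(Measure.map (G.del r) (volume : Measure (Pt N))), ‖F y‖ ≤ 1 := by
      rw [G.map_del hr]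
      exact Measure.ae_smul_measure h.bd _
    exact ae_of_ae_map (G.continuous_del r).measurable.aemeasurable h3
  · have h3 := h.lip (G.del r x) (G.del r y)
    rw [G.di_del hr] at h3
    rw [← mul_sub, abs_mul, abs_of_pos (inv_pos.2 hr), inv_mul_le_iff₀ hr]
    exact h3

theorem GS.cont {G : Carnot N m} {A : Hv m → Hv m} {u : Pt N → ℝ} {F : Pt N → Hv m}
    (h : GS G A u F) : Continuous u := by
  rw [continuous_iff_continuousAt]
  intro x
  have h1 : Tendsto (fun y => G.di y x) (𝓝 x) (𝓝 0) := by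
    have h2 : Continuous fun y => G.di y x :=
      G.continuous_di.comp (continuous_id.prodMk continuous_const)
    have h3 := h2.tendsto x
    rwa [G.di_self] at h3
  rw [ContinuousAt, tendsto_iff_norm_sub_tendsto_zero]
  refine squeeze_zero (fun _ => norm_nonneg _) (fun y => ?_) h1
  rw [Real.norm_eq_abs]
  exact h.lip y x

theorem GS.hw_top {G : Carnot N m} {A : Hv m → Hv m} {u : Pt N → ℝ} {F : Pt N → Hv m}
    (h : GS G A u F) : HW G ⊤ univ u F := by
  refine ⟨fun K hK _ => ?_, fun K hK hKu => ?_, h.sol.weak⟩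
  · obtain ⟨C, hC⟩ := hK.exists_bound_of_continuousOn h.cont.continuousOn
    refine memLp_top_of_bound h.cont.aestronglyMeasurable C ?_
    rw [ae_restrict_iff' hK.measurableSet]
    exact Eventually.of_forall hC
  · exact memLp_top_of_bound (h.sol.lqg K hK hKu).1 1 (ae_restrict_of_ae h.bd)

theorem exists_gs {G : Carnot N m} {A : Hv m → Hv m} {u : Pt N → ℝ} {F : Pt N → Hv m}
    (hu : Sol G 2 univ A u F) (hF : ∀ᵐ x, ‖F x‖ ≤ 1) : ∃ u' : Pt N → ℝ, GS G A u' F := by
  obtain ⟨u', hc, hae, hl⟩ := HW.lip_global (by norm_num) hu.toHW zero_le_one hF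
  refine ⟨u', ⟨⟨HW.congr isOpen_univ hu.toHW (hae.mono fun x hx _ => hx)
    (Eventually.of_forall fun _ _ => rfl), hu.eqn⟩, hF, fun x y => ?_⟩⟩
  have := hl x y
  rwa [one_mul] at this

end Pool.Agent.CG
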