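import Pool.Agent.CG.H.Base
import Pool.Agent.CG.B.Chain

/-!
# CG-H-Cacc: Caccioppoli inequality for the difference of two solutions
`w = u₁ - u₂`, `D = F₁ - F₂`, `f = max (w - k) 0`, `Df = if k < w then D else 0` (HW.sub, HW.posPart).
Test the difference of the equations with `z = η² f` (HW.mul_smooth with `η²`, compact support
`tsupport η`; `test_ext` with `p = p' = 2`, `H = A ∘ F₁ - A ∘ F₂`, which is bounded), then the pointwise
Young inequality.
-/

set_option autoImplicit false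

namespace Pool.Agent.CG

open MeasureTheory Set Filter Topology
open scoped ContDiff ENNReal

variable {m : ℕ}

/-- The pointwise Young inequality. -/
theorem young_pt (q σ c C : ℝ) (hq : 2 ≤ q) (hσ : 0 < σ) (hσ1 : σ ≤ 1) (hc : 0 < c) (hC : 0 ≤ C) :
    ∃ C' : ℝ, 0 ≤ C' ∧ ∀ η d t : ℝ, 0 ≤ η → η ≤ 1 → 0 ≤ d → 0 ≤ t →
      2 * C * η * d ^ σ * t ≤ c / 2 * (η ^ 2 * d ^ q) + C' * t ^ (q / (q - σ)) := by
  have hq0 : 0 < q := by linarith
  have hqσ : 0 < q - σ := by linarith
  have hconj : (q / σ).HolderConjugate (q / (q - σ)) := by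
    rw [Real.holderConjugate_iff]
    constructor
    · rw [one_lt_div hσ]; linarith
    · rw [inv_div, inv_div, ← add_div]
      rw [div_eq_one_iff_eq hq0.ne']
      ring
  set p := q / σ with hp
  set r := q / (q - σ) with hr
  have hp0 : 0 < p := by positivity
  have hr0 : 0 < r := by positivity
  have hp1 : 1 ≤ p := hconj.lt.le
  have hr1 : 1 ≤ r := hconj.symm.lt.le
  set ε := (c / 2) ^ (1 / p) with hε
  have hε0 : 0 < ε := Real.rpow_pos_of_pos (by positivity) _
  have hεp : ε ^ p = c / 2 := by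
    rw [hε, ← Real.rpow_mul (by positivity), one_div, inv_mul_cancel₀ hp0.ne', Real.rpow_one]
  refine ⟨(2 * C / ε) ^ r, Real.rpow_nonneg (by positivity) _, fun η d t hη hη1 hd ht => ?_⟩
  rcases eq_or_lt_of_le hη with h0 | hη0
  · rw [← h0]
    have h1 : 0 ≤ (2 * C / ε) ^ r * t ^ r :=
      mul_nonneg (Real.rpow_nonneg (by positivity) _) (Real.rpow_nonneg ht _)
    simpa using h1
  · have ha : 0 ≤ ε * η ^ (2 * σ / q) * d ^ σ :=
      mul_nonneg (mul_nonneg hε0.le (Real.rpow_nonneg hη _)) (Real.rpow_nonneg hd _)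
    have hb : 0 ≤ 2 * C / ε * η ^ (1 - 2 * σ / q) * t :=
      mul_nonneg (mul_nonneg (by positivity) (Real.rpow_nonneg hη _)) ht
    have hy := Real.young_inequality_of_nonneg ha hb hconj
    have e1 : ε * η ^ (2 * σ / q) * d ^ σ * (2 * C / ε * η ^ (1 - 2 * σ / q) * t) =
        2 * C * η * d ^ σ * t := by
      have h2 : η ^ (2 * σ / q) * η ^ (1 - 2 * σ / q) = η := by
        rw [← Real.rpow_add hη0]
        simp
      calc ε * η ^ (2 * σ / q) * d ^ σ * (2 * C / ε * η ^ (1 - 2 * σ / q) * t)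
          = (ε * (2 * C / ε)) * (η ^ (2 * σ / q) * η ^ (1 - 2 * σ / q)) * d ^ σ * t := by ring
        _ = 2 * C * η * d ^ σ * t := by rw [h2, mul_div_cancel₀ _ hε0.ne']
    have e2 : (ε * η ^ (2 * σ / q) * d ^ σ) ^ p = c / 2 * (η ^ 2 * d ^ q) := by
      rw [Real.mul_rpow (mul_nonneg hε0.le (Real.rpow_nonneg hη _)) (Real.rpow_nonneg hd _),
        Real.mul_rpow hε0.le (Real.rpow_nonneg hη _), hεp, ← Real.rpow_mul hη, ← Real.rpow_mul hd]
      have h3 : 2 * σ / q * p = (2 : ℕ) := by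
        rw [hp]; push_cast; field_simp
      have h4 : σ * p = q := by rw [hp]; field_simp
      rw [h3, h4, Real.rpow_natCast]
      ring
    have e3 : (2 * C / ε * η ^ (1 - 2 * σ / q) * t) ^ r ≤ (2 * C / ε) ^ r * t ^ r := by
      rw [Real.mul_rpow (mul_nonneg (by positivity) (Real.rpow_nonneg hη _)) ht,
        Real.mul_rpow (by positivity) (Real.rpow_nonneg hη _), ← Real.rpow_mul hη]
      have h5 : η ^ ((1 - 2 * σ / q) * r) ≤ 1 := by
        refine Real.rpow_le_one hη hη1 (mul_nonneg ?_ hr0.le)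
        rw [sub_nonneg, div_le_one hq0]
        linarith
      have h6 : 0 ≤ (2 * C / ε) ^ r := Real.rpow_nonneg (by positivity) _
      have h7 : 0 ≤ t ^ r := Real.rpow_nonneg ht _
      calc (2 * C / ε) ^ r * η ^ ((1 - 2 * σ / q) * r) * t ^ r
          ≤ (2 * C / ε) ^ r * 1 * t ^ r :=
            mul_le_mul_of_nonneg_right (mul_le_mul_of_nonneg_left h5 h6) h7
        _ = _ := by ring
    rw [e1, e2] at hy
    have h8 : 0 ≤ c / 2 * (η ^ 2 * d ^ q) := by
      have := Real.rpow_nonneg hd q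
      positivity
    have h9 : 0 ≤ (2 * C / ε) ^ r * t ^ r :=
      mul_nonneg (Real.rpow_nonneg (by positivity) _) (Real.rpow_nonneg ht _)
    have h10 : c / 2 * (η ^ 2 * d ^ q) / p ≤ c / 2 * (η ^ 2 * d ^ q) := div_le_self h8 hp1
    have h11 : (2 * C / ε * η ^ (1 - 2 * σ / q) * t) ^ r / r ≤ (2 * C / ε) ^ r * t ^ r :=
      (div_le_div_of_nonneg_right e3 hr0.le).trans (div_le_self h9 hr1)
    linarith

/-- bounded measurable functions with compact support are integrable -/
private theorem int_of_bdd {N : ℕ} {E : Type*} [NormedAddCommGroup E] {g : Pt N → E}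
    (hg : AEStronglyMeasurable g volume) {K : Set (Pt N)} (hK : IsCompact K) {M : ℝ}
    (hM : ∀ᵐ x, ‖g x‖ ≤ M) (h0 : ∀ x, x ∉ K → g x = 0) : Integrable g volume := by
  have h1 : IntegrableOn g K volume :=
    IntegrableOn.of_bound hK.measure_lt_top hg.restrict M (ae_restrict_of_ae hM)
  have h2 : K.indicator g = g := by
    rw [indicator_eq_self]
    intro x hx
    by_contra hc
    exact hx (h0 x hc)
  rw [← h2]
  exact (integrable_indicator_iff hK.measurableSet).2 h1

private theorem aesm_of_hw {N : ℕ} {G : Carnot N m} {q : ℝ≥0∞} {u : Pt N → ℝ} {F : Pt N → Hv m}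
    (h : HW G q univ u F) : AEStronglyMeasurable F volume := by
  have h1 : ∀ K : Set (Pt N), IsCompact K → AEStronglyMeasurable F (volume.restrict K) :=
    fun K hK => (h.lqg K hK (subset_univ K)).1
  have h2 : AEStronglyMeasurable F (volume.restrict (⋃ n : ℕ, Metric.closedBall (0 : Pt N) n)) := by
    rw [aestronglyMeasurable_iUnion_iff]
    intro n
    exact h1 _ (isCompact_closedBall _ _)
  have h3 : (⋃ n : ℕ, Metric.closedBall (0 : Pt N) n) = univ := by
    rw [eq_univ_iff_forall]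
    intro x
    obtain ⟨n, hn⟩ := exists_nat_ge (dist x 0)
    exact mem_iUnion.2 ⟨n, hn⟩
  rwa [h3, Measure.restrict_univ] at h2

private theorem grad_sq {N : ℕ} (G : Carnot N m) {η : Pt N → ℝ} (hη : ContDiff ℝ ∞ η) (x : Pt N) :
    G.grad (fun x => η x ^ 2) x = (2 * η x) • G.grad η x := by
  have hd : DifferentiableAt ℝ η x := hη.differentiable (by simp) x
  ext k
  have h1 : (fun x => η x ^ 2) = fun x => η x * η x := by
    funext y
    ring
  simp only [Carnot.grad, PiLp.smul_apply, smul_eq_mul]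
  rw [h1, G.X_mul hd hd k]
  ring

theorem cacc_diff (q σ c C : ℝ) (hq : 2 ≤ q) (hσ : 0 < σ) (hσ1 : σ ≤ 1) (hc : 0 < c) (hC : 0 ≤ C) :
    ∃ C' : ℝ, 0 ≤ C' ∧ ∀ (N : ℕ) (G : Carnot N m) (A : Hv m → Hv m), MinS q σ c C A →
      ∀ (u₁ u₂ : Pt N → ℝ) (F₁ F₂ : Pt N → Hv m), GS G A u₁ F₁ → GS G A u₂ F₂ →
      ∀ (k : ℝ) (η : Pt N → ℝ), Test univ η → (∀ x, 0 ≤ η x) → (∀ x, η x ≤ 1) →
      ∫ x, η x ^ 2 * (if k < u₁ x - u₂ x then ‖F₁ x - F₂ x‖ ^ q else 0) ≤
        C' * ∫ x, (max (u₁ x - u₂ x - k) 0 * ‖G.grad η x‖) ^ (q / (q - σ)) := by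
  obtain ⟨C0, hC0, hY⟩ := young_pt q σ c C hq hσ hσ1 hc hC
  refine ⟨2 * C0 / c, by positivity, ?_⟩
  intro N G A hA u₁ u₂ F₁ F₂ hu₁ hu₂ k η hη hη0 hη1
  have hq0 : 0 < q := by linarith
  have hqσ : 0 < q - σ := by linarith
  have hr0 : 0 < q / (q - σ) := by positivity
  -- measurability
  have mF₁ : AEStronglyMeasurable F₁ volume := aesm_of_hw hu₁.sol.toHW
  have mF₂ : AEStronglyMeasurable F₂ volume := aesm_of_hw hu₂.sol.toHW
  have mH : AEStronglyMeasurable (fun x => A (F₁ x) - A (F₂ x)) volume :=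
    (hA.cont.comp_aestronglyMeasurable mF₁).sub (hA.cont.comp_aestronglyMeasurable mF₂)
  have cw : Continuous (fun x => u₁ x - u₂ x) := hu₁.cont.sub hu₂.cont
  have hopen : IsOpen {x | k < u₁ x - u₂ x} := isOpen_lt continuous_const cw
  have cg : Continuous (G.grad η) := (G.smooth_grad hη.smooth).continuous
  have cη : Continuous η := hη.smooth.continuous
  -- gradient vanishes off the support of `η`
  have hKc : IsCompact (tsupport η) := hη.cpt
  have hη00 : ∀ x, x ∉ tsupport η → η x = 0 := fun x hx => image_eq_zero_of_notMem_tsupport hx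
  have hg0 : ∀ x, x ∉ tsupport η → G.grad η x = 0 := by
    intro x hx
    have h1 : η =ᶠ[𝓝 x] fun _ => 0 := by
      filter_upwards [(isClosed_tsupport η).isOpen_compl.mem_nhds hx] with y hy
      exact hη00 y hy
    have h2 : fderiv ℝ η x = 0 := by
      rw [h1.fderiv_eq]
      simp
    ext j
    simp only [Carnot.grad, PiLp.zero_apply]
    rw [G.X_eq (hη.smooth.differentiable (by simp) x) j, h2]
    rfl
  -- the test function
  have hw : HW G 2 univ (fun x => u₁ x - u₂ x) (fun x => F₁ x - F₂ x) :=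
    HW.sub one_le_two hu₁.sol.toHW hu₂.sol.toHW
  have hf := HW.posPart isOpen_univ one_le_two hw k
  have hη2 : ContDiff ℝ ∞ (fun x => η x ^ 2) := hη.smooth.pow 2
  have hz := HW.mul_smooth one_le_two hf hη2
  -- bounds
  have bD : ∀ᵐ x, ‖F₁ x - F₂ x‖ ≤ 2 := by
    filter_upwards [hu₁.bd, hu₂.bd] with x h1 h2
    exact (norm_sub_le _ _).trans (by linarith)
  have bH : ∀ᵐ x, ‖A (F₁ x) - A (F₂ x)‖ ≤ C * ‖F₁ x - F₂ x‖ ^ σ := by
    filter_upwards [hu₁.bd, hu₂.bd] with x h1 h2
    exact hA.hold _ _ h1 h2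
  have bH2 : ∀ᵐ x, ‖A (F₁ x) - A (F₂ x)‖ ≤ C * 2 ^ σ := by
    filter_upwards [bH, bD] with x h1 h2
    exact h1.trans (mul_le_mul_of_nonneg_left (Real.rpow_le_rpow (norm_nonneg _) h2 hσ.le) hC)
  have hHL : LqLoc 2 univ (fun x => A (F₁ x) - A (F₂ x)) := by
    intro K hK _
    haveI : IsFiniteMeasure (volume.restrict K) := ⟨by
      rw [Measure.restrict_apply_univ]; exact hK.measure_lt_top⟩
    exact MemLp.of_bound mH.restrict (C * 2 ^ σ) (ae_restrict_of_ae bH2)
  -- each equation is integrable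
  have intE : ∀ (F : Pt N → Hv m), AEStronglyMeasurable F volume → (∀ᵐ x, ‖F x‖ ≤ 1) →
      ∀ φ : Pt N → ℝ, Test univ φ → Integrable (fun x => inner ℝ (A (F x)) (G.grad φ x)) volume := by
    intro F mF bF φ hφ
    have cφ : Continuous (G.grad φ) := (G.smooth_grad hφ.smooth).continuous
    obtain ⟨M1, hM1⟩ := (isCompact_closedBall (0 : Hv m) 1).exists_bound_of_continuousOn
      hA.cont.continuousOn
    have hφ0 : ∀ x, x ∉ tsupport φ → G.grad φ x = 0 := by
      intro x hx
      have h1 : φ =ᶠ[𝓝 x] fun _ => 0 := by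
        filter_upwards [(isClosed_tsupport φ).isOpen_compl.mem_nhds hx] with y hy
        exact image_eq_zero_of_notMem_tsupport hy
      have h2 : fderiv ℝ φ x = 0 := by
        rw [h1.fderiv_eq]
        simp
      ext j
      simp only [Carnot.grad, PiLp.zero_apply]
      rw [G.X_eq (hφ.smooth.differentiable (by simp) x) j, h2]
      rfl
    obtain ⟨M2, hM2⟩ := hφ.cpt.exists_bound_of_continuousOn (f := G.grad φ) cφ.continuousOn
    refine int_of_bdd (K := tsupport φ) (M := M1 * max M2 0)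
      ((hA.cont.comp_aestronglyMeasurable mF).inner cφ.aestronglyMeasurable) hφ.cpt ?_ ?_
    · filter_upwards [bF] with x hx
      refine (norm_inner_le_norm _ _).trans ?_
      have h1 := hM1 (F x) (by simpa using hx)
      have h2 : ‖G.grad φ x‖ ≤ max M2 0 := by
        by_cases hxs : x ∈ tsupport φ
        · exact (hM2 x hxs).trans (le_max_left _ _)
        · rw [hφ0 x hxs, norm_zero]
          exact le_max_right _ _
      exact mul_le_mul h1 h2 (norm_nonneg _) ((norm_nonneg _).trans h1)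
    · intro x hx
      rw [hφ0 x hx, inner_zero_right]
  have h0 : ∀ φ : Pt N → ℝ, Test univ φ →
      ∫ x, inner ℝ (A (F₁ x) - A (F₂ x)) (G.grad φ x) = 0 := by
    intro φ hφ
    have h1 := hu₁.sol.eqn φ hφ
    have h2 := hu₂.sol.eqn φ hφ
    simp only [inner_sub_left]
    rw [integral_sub (intE F₁ mF₁ hu₁.bd φ hφ) (intE F₂ mF₂ hu₂.bd φ hφ), h1, h2, sub_zero]
  have key := test_ext isOpen_univ (p := 2) (p' := 2) one_le_two (by norm_num) inferInstance hHL h0 hz
    hKc (subset_univ _) (fun x hx => by simp [hη00 x hx]) (fun x hx => by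
      rw [grad_sq G hη.smooth x, hη00 x hx]
      simp)
  -- bounds of the continuous functions
  obtain ⟨Mg, hMg0, hMg⟩ : ∃ M : ℝ, 0 ≤ M ∧ ∀ x ∈ tsupport η, ‖G.grad η x‖ ≤ M := by
    obtain ⟨M, hM⟩ := hKc.exists_bound_of_continuousOn (f := G.grad η) cg.continuousOn
    exact ⟨|M|, abs_nonneg M, fun x hx => (hM x hx).trans (le_abs_self M)⟩
  have cf : Continuous (fun x => max (u₁ x - u₂ x - k) 0) :=
    (cw.sub continuous_const).max continuous_const
  obtain ⟨Mf, hMf0, hMf⟩ : ∃ M : ℝ, 0 ≤ M ∧ ∀ x ∈ tsupport η, ‖max (u₁ x - u₂ x - k) 0‖ ≤ M := by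
    obtain ⟨M, hM⟩ := hKc.exists_bound_of_continuousOn (f := fun x => max (u₁ x - u₂ x - k) 0)
      cf.continuousOn
    exact ⟨|M|, abs_nonneg M, fun x hx => (hM x hx).trans (le_abs_self M)⟩
  -- the three integrands
  set Z : Pt N → Hv m := fun x => η x ^ 2 • (if k < u₁ x - u₂ x then F₁ x - F₂ x else 0) +
    max (u₁ x - u₂ x - k) 0 • G.grad (fun x => η x ^ 2) x with hZ
  have mDf : AEStronglyMeasurable (fun x => if k < u₁ x - u₂ x then F₁ x - F₂ x else 0) volume := by
    have h1 : (fun x => if k < u₁ x - u₂ x then F₁ x - F₂ x else 0) =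
        {x | k < u₁ x - u₂ x}.indicator (fun x => F₁ x - F₂ x) := by
      funext x
      by_cases hx : k < u₁ x - u₂ x
      · rw [if_pos hx, indicator_of_mem (by exact hx)]
      · rw [if_neg hx, indicator_of_notMem (by exact hx)]
    rw [h1]
    exact (mF₁.sub mF₂).indicator hopen.measurableSet
  have cg2 : Continuous (G.grad (fun x => η x ^ 2)) := (G.smooth_grad hη2).continuous
  have mZ : AEStronglyMeasurable Z volume :=
    ((cη.pow 2).aestronglyMeasurable.smul mDf).add
      (cf.aestronglyMeasurable.smul cg2.aestronglyMeasurable)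
  have hZ0 : ∀ x, x ∉ tsupport η → Z x = 0 := by
    intro x hx
    simp only [hZ]
    rw [grad_sq G hη.smooth x, hη00 x hx]
    simp
  have i1 : Integrable (fun x => inner ℝ (A (F₁ x) - A (F₂ x)) (Z x)) volume := by
    refine int_of_bdd (K := tsupport η) (M := C * 2 ^ σ * (2 + Mf * (2 * Mg))) (mH.inner mZ) hKc ?_ ?_
    · filter_upwards [bH2, bD] with x h1 h2
      by_cases hx : x ∈ tsupport η
      · refine (norm_inner_le_norm _ _).trans ?_
        have h3 : ‖Z x‖ ≤ 2 + Mf * (2 * Mg) := by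
          simp only [hZ]
          refine (norm_add_le _ _).trans (add_le_add ?_ ?_)
          · rw [norm_smul, Real.norm_eq_abs, abs_of_nonneg (sq_nonneg _)]
            have h4 : η x ^ 2 ≤ 1 := pow_le_one₀ (hη0 x) (hη1 x)
            have h5 : ‖if k < u₁ x - u₂ x then F₁ x - F₂ x else 0‖ ≤ 2 := by
              split_ifs
              · exact h2
              · rw [norm_zero]; norm_num
            calc η x ^ 2 * ‖if k < u₁ x - u₂ x then F₁ x - F₂ x else 0‖ ≤ 1 * 2 :=
                  mul_le_mul h4 h5 (norm_nonneg _) zero_le_one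
              _ = 2 := by norm_num
          · rw [grad_sq G hη.smooth x, norm_smul, norm_smul]
            refine mul_le_mul (hMf x hx) ?_ (by positivity) hMf0
            refine mul_le_mul ?_ (hMg x hx) (norm_nonneg _) (by norm_num)
            rw [Real.norm_eq_abs, abs_of_nonneg (by linarith [hη0 x] : (0:ℝ) ≤ 2 * η x)]
            linarith [hη1 x]
        exact mul_le_mul h1 h3 (norm_nonneg _) ((norm_nonneg _).trans h1)
      · rw [hZ0 x hx, inner_zero_right, norm_zero]
        positivity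
    · intro x hx
      rw [hZ0 x hx, inner_zero_right]
  have i2 : Integrable (fun x => (max (u₁ x - u₂ x - k) 0 * ‖G.grad η x‖) ^ (q / (q - σ))) volume := by
    refine Continuous.integrable_of_hasCompactSupport ?_ ?_
    · exact (cf.mul cg.norm).rpow_const (fun x => Or.inr hr0.le)
    · refine HasCompactSupport.intro hKc fun x hx => ?_
      rw [hg0 x hx, norm_zero, mul_zero, Real.zero_rpow hr0.ne']
  have mD : AEStronglyMeasurable (fun x => ‖F₁ x - F₂ x‖ ^ q) volume :=
    (Real.continuous_rpow_const hq0.le).comp_aestronglyMeasurable (mF₁.sub mF₂).norm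
  have i3 : Integrable (fun x => η x ^ 2 * (if k < u₁ x - u₂ x then ‖F₁ x - F₂ x‖ ^ q else 0)) volume := by
    have h1 : (fun x => if k < u₁ x - u₂ x then ‖F₁ x - F₂ x‖ ^ q else 0) =
        {x | k < u₁ x - u₂ x}.indicator (fun x => ‖F₁ x - F₂ x‖ ^ q) := by
      funext x
      by_cases hx : k < u₁ x - u₂ x
      · rw [if_pos hx, indicator_of_mem (by exact hx)]
      · rw [if_neg hx, indicator_of_notMem (by exact hx)]
    have h2 : AEStronglyMeasurable (fun x => if k < u₁ x - u₂ x then ‖F₁ x - F₂ x‖ ^ q else 0)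
        volume := by
      rw [h1]
      exact mD.indicator hopen.measurableSet
    refine int_of_bdd (K := tsupport η) (M := 1 * 2 ^ q) ((cη.pow 2).aestronglyMeasurable.mul h2) hKc
      ?_ ?_
    · filter_upwards [bD] with x hx
      rw [norm_mul]
      refine mul_le_mul ?_ ?_ (norm_nonneg _) zero_le_one
      · rw [Real.norm_eq_abs, abs_of_nonneg (sq_nonneg _)]
        exact pow_le_one₀ (hη0 x) (hη1 x)
      · split_ifs
        · rw [Real.norm_eq_abs, abs_of_nonneg (Real.rpow_nonneg (norm_nonneg _) _)]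
          exact Real.rpow_le_rpow (norm_nonneg _) hx hq0.le
        · rw [norm_zero]; positivity
    · intro x hx
      rw [hη00 x hx]
      simp
  -- pointwise inequality
  have hpt : ∀ᵐ x, c / 2 * (η x ^ 2 * (if k < u₁ x - u₂ x then ‖F₁ x - F₂ x‖ ^ q else 0)) ≤
      inner ℝ (A (F₁ x) - A (F₂ x)) (Z x) +
        C0 * (max (u₁ x - u₂ x - k) 0 * ‖G.grad η x‖) ^ (q / (q - σ)) := by
    filter_upwards [hu₁.bd, hu₂.bd] with x h1 h2
    by_cases hx : k < u₁ x - u₂ x
    · simp only [hZ, if_pos hx]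
      rw [grad_sq G hη.smooth x, inner_add_right, inner_smul_right, inner_smul_right, inner_smul_right]
      have hf0 : 0 ≤ max (u₁ x - u₂ x - k) 0 := le_max_right _ _
      have e1 := hA.mono _ _ h1 h2
      have e2 := hA.hold _ _ h1 h2
      have e3 := hY (η x) ‖F₁ x - F₂ x‖ (max (u₁ x - u₂ x - k) 0 * ‖G.grad η x‖) (hη0 x) (hη1 x)
        (norm_nonneg _) (mul_nonneg hf0 (norm_nonneg _))
      have e4 : |inner ℝ (A (F₁ x) - A (F₂ x)) (G.grad η x)| ≤
          C * ‖F₁ x - F₂ x‖ ^ σ * ‖G.grad η x‖ :=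
        (abs_real_inner_le_norm _ _).trans (mul_le_mul_of_nonneg_right e2 (norm_nonneg _))
      have e5 := (abs_le.1 e4).1
      have e6 : η x ^ 2 * (c * ‖F₁ x - F₂ x‖ ^ q) ≤
          η x ^ 2 * inner ℝ (A (F₁ x) - A (F₂ x)) (F₁ x - F₂ x) :=
        mul_le_mul_of_nonneg_left e1 (sq_nonneg _)
      have e7 : 0 ≤ max (u₁ x - u₂ x - k) 0 * (2 * η x) := mul_nonneg hf0 (by linarith [hη0 x])
      have e8 := mul_le_mul_of_nonneg_left e5 e7
      have e9 : max (u₁ x - u₂ x - k) 0 * (2 * η x) * -(C * ‖F₁ x - F₂ x‖ ^ σ * ‖G.grad η x‖) =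
          -(2 * C * η x * ‖F₁ x - F₂ x‖ ^ σ * (max (u₁ x - u₂ x - k) 0 * ‖G.grad η x‖)) := by ring
      rw [e9] at e8
      have e10 : max (u₁ x - u₂ x - k) 0 * (2 * η x * inner ℝ (A (F₁ x) - A (F₂ x)) (G.grad η x)) =
          max (u₁ x - u₂ x - k) 0 * (2 * η x) * inner ℝ (A (F₁ x) - A (F₂ x)) (G.grad η x) := by ring
      rw [e10]
      linarith
    · have hf0 : max (u₁ x - u₂ x - k) 0 = 0 := max_eq_right (by linarith)
      simp only [hZ, if_neg hx, hf0]
      simp [Real.zero_rpow hr0.ne']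
  have hfin := integral_mono_ae (i3.const_mul (c / 2)) (i1.add (i2.const_mul C0)) hpt
  rw [integral_const_mul] at hfin
  have hadd : ∫ x, ((fun x => inner ℝ (A (F₁ x) - A (F₂ x)) (Z x)) +
      fun x => C0 * (max (u₁ x - u₂ x - k) 0 * ‖G.grad η x‖) ^ (q / (q - σ))) x =
      0 + C0 * ∫ x, (max (u₁ x - u₂ x - k) 0 * ‖G.grad η x‖) ^ (q / (q - σ)) := by
    rw [integral_add' i1 (i2.const_mul C0), integral_const_mul]
    congr 1
  rw [hadd, zero_add] at hfin
  rw [div_mul_eq_mul_div, le_div_iff₀ hc]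
  linarith

end Pool.Agent.CG
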