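import Pool.Agent.CG.H.Base
import Pool.Agent.CG.Euc

/-!
# CG-H-Desc1: descent of functions and gradients to the horizontal coordinates
PLAN.  `U z = u (ι z)`, `ι z` = the point with horizontal coordinates `z` and the others zero.
`u x = U (π x)`, `π x k = x (hor k)`.  `U` is Lipschitz for the norm of `Pt m`: for `z, z'` walk in `G`
from `ι z` along the word `(k, z' k - z k)_k`: the end point has horizontal coordinates `z'`
(`mul_apply_hor`), so `|U z - U z'| ≤ ell (..) ≤ ∑ |z' k - z k| ≤ m ‖z - z'‖`.
`F' z = (∂_k U (z))_k` (`lineDeriv ℝ U z (Pi.single k 1)`), defined a.e. by Rademacher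
(`LipschitzWith.ae_differentiableAt`); bounded and measurable (`measurable_lineDeriv`); the weak
derivative property on `ℝ^m` is `LipschitzWith.integral_lineDeriv_mul_eq`.
On `G`: `HW G 2 univ u (F' ∘ π)`: `(u (x (t e_k)) - u x) / t = (U (π x + t e_k) - U (π x)) / t → F' (π x) k` for a.e. `x`
(the set of bad `x` is the preimage under `π` of a null set, null by Fubini:
`MeasureTheory.volume_preserving_piEquivPiSubtypeProd`, or `π` restricted is a linear surjection:
`Measure.map` of volume under a surjective linear map is absolutely continuous,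
`LinearMap.exists_map_addHaar_eq_smul_addHaar'` or `ContinuousLinearMap.quasiMeasurePreserving`),
bounded by the Lipschitz constant; integrate against a test function `φ`, use `mp_right`, and pass to the
limit by dominated convergence: `∫ F'(π x) k φ = - ∫ u X_k φ`.  Then `HW.unique`.
-/

set_option autoImplicit false

namespace Pool.Agent.CG

open MeasureTheory Set Filter Topology
open scoped ContDiff ENNReal

variable {N m : ℕ}

/-- Splitting of the coordinates into the horizontal ones and the others. -/
noncomputable def splitEquiv (G : Carnot N m) :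
    Pt N ≃ᵐ ((Fin m → ℝ) × ({i : Fin N // ¬ i ∈ range G.hor} → ℝ)) :=
  (MeasurableEquiv.piEquivPiSubtypeProd (fun _ : Fin N => ℝ) (fun i => i ∈ range G.hor)).trans
    ((MeasurableEquiv.piCongrLeft (fun _ : {i : Fin N // i ∈ range G.hor} => ℝ)
      (Equiv.ofInjective G.hor G.hor_inj)).symm.prodCongr (MeasurableEquiv.refl _))

theorem splitEquiv_fst (G : Carnot N m) (x : Pt N) :
    (splitEquiv G x).1 = fun k => x (G.hor k) := by
  funext k
  rfl

theorem splitEquiv_mp (G : Carnot N m) :
    MeasurePreserving (splitEquiv G) volume (volume.prod volume) := by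
  letI inst1 : Fintype {i : Fin N // i ∈ range G.hor} := Subtype.fintype _
  have h1 : MeasurePreserving (MeasurableEquiv.piEquivPiSubtypeProd (fun _ : Fin N => ℝ)
      (fun i => i ∈ range G.hor)) volume (volume.prod volume) :=
    volume_preserving_piEquivPiSubtypeProd (fun _ : Fin N => ℝ) (fun i => i ∈ range G.hor)
  have h2 := (volume_measurePreserving_piCongrLeft (fun _ : {i : Fin N // i ∈ range G.hor} => ℝ)
      (Equiv.ofInjective G.hor G.hor_inj)).symm
  have h3 := h2.prod (MeasurePreserving.id (volume : Measure ({i : Fin N // ¬ i ∈ range G.hor} → ℝ)))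
  exact h3.comp h1

/-- `π` is quasi measure preserving: preimages of null sets are null. -/
theorem proj_qmp (G : Carnot N m) :
    Measure.QuasiMeasurePreserving (fun (x : Pt N) (k : Fin m) => x (G.hor k)) volume volume := by
  have h1 := (splitEquiv_mp G).quasiMeasurePreserving
  have h2 : Measure.QuasiMeasurePreserving
      (Prod.fst : (Fin m → ℝ) × ({i : Fin N // ¬ i ∈ range G.hor} → ℝ) → (Fin m → ℝ))
      (volume.prod volume) volume := Measure.quasiMeasurePreserving_fst
  exact h2.comp h1

/-- Conversely a property that holds almost everywhere upstairs holds almost everywhere downstairs. -/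
theorem ae_of_proj (G : Carnot N m) {P : Pt m → Prop}
    (h : ∀ᵐ x : Pt N, P (fun k => x (G.hor k))) : ∀ᵐ z, P z := by
  have h1 : ∀ᵐ y ∂((volume : Measure (Fin m → ℝ)).prod
      (volume : Measure ({i : Fin N // ¬ i ∈ range G.hor} → ℝ))), P y.1 := by
    have h2 := (splitEquiv_mp G).symm.quasiMeasurePreserving.ae h
    filter_upwards [h2] with y hy
    have h3 : (fun k => (splitEquiv G).symm y (G.hor k)) = y.1 := by
      rw [← splitEquiv_fst, MeasurableEquiv.apply_symm_apply]
    rw [h3] at hy
    exact hy
  have h4 : (volume : Measure (Fin m → ℝ)) {z | ¬ P z} *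
      (volume : Measure ({i : Fin N // ¬ i ∈ range G.hor} → ℝ)) univ = 0 := by
    rw [← Measure.prod_prod]
    rw [ae_iff] at h1
    refine measure_mono_null ?_ h1
    rintro ⟨a, b⟩ hab
    exact hab.1
  rw [ae_iff]
  rcases mul_eq_zero.1 h4 with h5 | h5
  · exact h5
  · exfalso
    have : (volume : Measure ({i : Fin N // ¬ i ∈ range G.hor} → ℝ)) ≠ 0 :=
      (inferInstance : NeZero (volume : Measure ({i : Fin N // ¬ i ∈ range G.hor} → ℝ))).out
    exact this (Measure.measure_univ_eq_zero.1 h5)

/-- horizontal coordinates of the value of a word -/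
theorem ev_hor (G : Carnot N m) (w : List (Fin m × ℝ)) (j : Fin m) :
    G.ev w (G.hor j) = (w.map (fun p => if p.1 = j then p.2 else 0)).sum := by
  induction w with
  | nil => simp
  | cons p w ih =>
    rw [Carnot.ev_cons, G.mul_apply_hor, ih, List.map_cons, List.sum_cons]
    congr 1
    rw [Pi.smul_apply, G.e_apply, smul_eq_mul]
    by_cases h : p.1 = j
    · rw [if_pos (by rw [h]), if_pos h, mul_one]
    · rw [if_neg (fun h' => h (G.hor_inj h').symm), if_neg h, MulZeroClass.mul_zero]

theorem len_map (f : Fin m → ℝ) (l : List (Fin m)) :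
    Carnot.len (l.map (fun k => (k, f k))) = (l.map (fun k => |f k|)).sum := by
  induction l with
  | nil => simp
  | cons a l ih => simp [ih]

theorem walk (G : Carnot N m) {u : Pt N → ℝ} (hl : ∀ x y, |u x - u y| ≤ G.di x y)
    (hdep : ∀ x y : Pt N, (∀ k, x (G.hor k) = y (G.hor k)) → u x = u y) (x y : Pt N) :
    |u x - u y| ≤ ∑ k, |y (G.hor k) - x (G.hor k)| := by
  set w : List (Fin m × ℝ) :=
    (List.finRange m).map (fun k => (k, y (G.hor k) - x (G.hor k))) with hw
  have h1 : u y = u (G.mul x (G.ev w)) := by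
    refine hdep _ _ fun k => ?_
    rw [G.mul_apply_hor, ev_hor, hw, List.map_map]
    have h2 : ((List.finRange m).map ((fun p : Fin m × ℝ => if p.1 = k then p.2 else 0) ∘
        fun k => (k, y (G.hor k) - x (G.hor k)))).sum = y (G.hor k) - x (G.hor k) := by
      rw [← List.ofFn_eq_map, List.sum_ofFn]
      simp
    rw [h2]
    ring
  rw [h1]
  refine (hl _ _).trans ?_
  rw [Carnot.di, G.neg_mul_cancel]
  refine (G.ell_ev_le w).trans ?_
  rw [hw, len_map, ← List.ofFn_eq_map, List.sum_ofFn]

theorem norm_single_le (k : Fin m) : ‖(Pi.single k 1 : Pt m)‖ ≤ 1 := by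
  refine (pi_norm_le_iff_of_nonneg zero_le_one).2 fun j => ?_
  rw [Pi.single_apply]
  split_ifs <;> simp

theorem lqloc_cont {n : ℕ} {E : Type*} [NormedAddCommGroup E] {q : ENNReal} {Ω : Set (Pt n)}
    {f : Pt n → E} (hf : Continuous f) [SecondCountableTopologyEither (Pt n) E] : LqLoc q Ω f := by
  intro K hK _
  haveI : IsFiniteMeasure ((volume : Measure (Pt n)).restrict K) :=
    ⟨by rw [Measure.restrict_apply_univ]; exact hK.measure_lt_top⟩
  obtain ⟨C, hC⟩ := hK.exists_bound_of_continuousOn hf.continuousOn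
  refine MemLp.of_bound hf.aestronglyMeasurable C ?_
  exact (ae_restrict_iff' hK.measurableSet).2 (Eventually.of_forall fun x hx => hC x hx)

theorem lqloc_bdd {n : ℕ} {E : Type*} [NormedAddCommGroup E] {q : ENNReal} {Ω : Set (Pt n)}
    {f : Pt n → E} (hf : AEStronglyMeasurable f volume) {C : ℝ} (hC : ∀ x, ‖f x‖ ≤ C) :
    LqLoc q Ω f := by
  intro K hK _
  haveI : IsFiniteMeasure ((volume : Measure (Pt n)).restrict K) :=
    ⟨by rw [Measure.restrict_apply_univ]; exact hK.measure_lt_top⟩
  exact MemLp.of_bound hf.restrict C (Eventually.of_forall hC)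

/-- the weak derivative of a function of the horizontal coordinates, by difference quotients -/
theorem weak_lift (G : Carnot N m) {U : Pt m → ℝ} {L : NNReal} (hU : LipschitzWith L U)
    {φ : Pt N → ℝ} (hφ : ContDiff ℝ ∞ φ) (hc : HasCompactSupport φ) (k : Fin m) :
    ∫ x : Pt N, U (fun j => x (G.hor j)) * G.X k φ x =
      - ∫ x : Pt N, lineDeriv ℝ U (fun j => x (G.hor j)) (Pi.single k 1) * φ x := by
  have hφ1 : ContDiff ℝ 1 φ := hφ.of_le (by exact_mod_cast le_top)
  set u : Pt N → ℝ := fun x => U (fun j => x (G.hor j)) with hu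
  have huc : Continuous u := hU.continuous.comp (by fun_prop)
  have hstep : ∀ (x : Pt N) (t : ℝ), u (G.mul x (t • G.e k)) =
      U ((fun j => x (G.hor j)) + t • Pi.single k 1) := by
    intro x t
    simp only [hu]
    congr 1
    funext j
    rw [G.mul_apply_hor, Pi.smul_apply, G.e_apply, Pi.add_apply, Pi.smul_apply, Pi.single_apply]
    by_cases h : j = k
    · rw [if_pos (by rw [h]), if_pos h]
    · rw [if_neg (fun h' => h (G.hor_inj h')), if_neg h]
  have hXc : Continuous (G.X k φ) := (G.smooth_X hφ k).continuous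
  have hXs : HasCompactSupport (G.X k φ) := (G.test_X (Ω := univ) ⟨hφ, hc, subset_univ _⟩ k).cpt
  obtain ⟨C, hC⟩ := hXs.exists_bound_of_continuous hXc
  have hC0 : 0 ≤ C := (norm_nonneg _).trans (hC 0)
  set K : Set (Pt N) := (fun q : Pt N × ℝ => G.mul q.1 (q.2 • G.e k)) ''
    (tsupport φ ×ˢ Icc (-1 : ℝ) 1) with hK
  have hKc : IsCompact K := by
    refine (hc.isCompact.prod isCompact_Icc).image ?_
    exact G.continuous_mul.comp (continuous_fst.prodMk (continuous_snd.smul continuous_const))
  -- first limit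
  have A : Tendsto (fun t : ℝ => ∫ x, (t⁻¹ * (u (G.mul x (t • G.e k)) - u x)) * φ x) (𝓝[≠] 0)
      (𝓝 (∫ x : Pt N, lineDeriv ℝ U (fun j => x (G.hor j)) (Pi.single k 1) * φ x)) := by
    refine tendsto_integral_filter_of_dominated_convergence (fun x => (L : ℝ) * |φ x|) ?_ ?_ ?_ ?_
    · refine Eventually.of_forall fun t => Continuous.aestronglyMeasurable ?_
      exact (continuous_const.mul ((huc.comp (G.continuous_right _)).sub huc)).mul hφ.continuous
    · filter_upwards [self_mem_nhdsWithin] with t ht
      refine Eventually.of_forall fun x => ?_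
      rw [norm_mul, Real.norm_eq_abs (φ x)]
      refine mul_le_mul_of_nonneg_right ?_ (abs_nonneg _)
      rw [hstep, norm_mul, norm_inv]
      have h1 := hU.dist_le_mul ((fun j => x (G.hor j)) + t • Pi.single k 1) (fun j => x (G.hor j))
      rw [dist_eq_norm, dist_eq_norm, add_sub_cancel_left, norm_smul] at h1
      have h2 : ‖(Pi.single k 1 : Pt m)‖ ≤ 1 := norm_single_le k
      have ht' : 0 < ‖t‖ := norm_pos_iff.2 ht
      rw [inv_mul_le_iff₀ ht']
      refine h1.trans ?_
      calc (L : ℝ) * (‖t‖ * ‖(Pi.single k 1 : Pt m)‖) ≤ (L : ℝ) * (‖t‖ * 1) := by gcongr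
        _ = ‖t‖ * L := by ring
    · exact ((hφ.continuous.integrable_of_hasCompactSupport hc).abs).const_mul _
    · have h1 : ∀ᵐ x : Pt N, DifferentiableAt ℝ U (fun j => x (G.hor j)) :=
        (proj_qmp G).ae hU.ae_differentiableAt
      filter_upwards [h1] with x hx
      refine Tendsto.mul_const _ ?_
      have h2 := (hx.lineDifferentiableAt (v := Pi.single k 1)).hasLineDerivAt
      have h3 := h2.tendsto_slope_zero
      simp only [hstep]
      simpa [hu] using h3
  have B : Tendsto (fun t : ℝ => ∫ x, u x * (t⁻¹ * (φ (G.mul x (-(t • G.e k))) - φ x))) (𝓝[≠] 0)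
      (𝓝 (∫ x : Pt N, u x * (- G.X k φ x))) := by
    refine tendsto_integral_filter_of_dominated_convergence
      (K.indicator (fun x => |u x| * C)) ?_ ?_ ?_ ?_
    · refine Eventually.of_forall fun t => Continuous.aestronglyMeasurable ?_
      exact huc.mul (continuous_const.mul
        ((hφ.continuous.comp (G.continuous_right _)).sub hφ.continuous))
    · have hIcc : ∀ᶠ t : ℝ in 𝓝[≠] 0, t ∈ Icc (-1 : ℝ) 1 :=
        nhdsWithin_le_nhds (Icc_mem_nhds (by norm_num) (by norm_num))
      filter_upwards [self_mem_nhdsWithin, hIcc] with t ht ht1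
      refine Eventually.of_forall fun x => ?_
      by_cases hx : x ∈ K
      · rw [indicator_of_mem hx, norm_mul, Real.norm_eq_abs]
        refine mul_le_mul_of_nonneg_left ?_ (abs_nonneg _)
        rw [norm_mul, norm_inv, inv_mul_le_iff₀ (norm_pos_iff.2 ht)]
        have hd : ∀ s : ℝ, HasDerivAt (fun s : ℝ => φ (G.mul x (s • G.e k)))
            (G.X k φ (G.mul x (s • G.e k))) s := fun s => G.hasDerivAt_X hφ1 k x s
        have hb := Convex.norm_image_sub_le_of_norm_deriv_le (f := fun s : ℝ => φ (G.mul x (s • G.e k)))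
          (C := C) (s := univ) (x := 0) (y := -t) (fun s _ => (hd s).differentiableAt)
          (fun s _ => by rw [(hd s).deriv]; exact hC _) convex_univ (mem_univ _) (mem_univ _)
        simp only [zero_smul, G.mul_zero, neg_smul, sub_zero, norm_neg] at hb
        rw [mul_comm]
        exact hb
      · have h1 : φ x = 0 := by
          by_contra h
          apply hx
          refine ⟨(x, 0), ⟨subset_tsupport _ h, by norm_num, by norm_num⟩, ?_⟩
          simp [G.mul_zero]
        have h2 : φ (G.mul x (-(t • G.e k))) = 0 := by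
          by_contra h
          apply hx
          refine ⟨(G.mul x (-(t • G.e k)), t), ⟨subset_tsupport _ h, ht1⟩, ?_⟩
          exact G.mul_neg_mul' x _
        rw [indicator_of_notMem hx, h1, h2]
        simp
    · rw [integrable_indicator_iff hKc.measurableSet]
      exact ((huc.abs.mul continuous_const).continuousOn).integrableOn_compact hKc
    · refine Eventually.of_forall fun x => ?_
      refine Tendsto.const_mul _ ?_
      have hd := G.hasDerivAt_X0 (φ := φ) (x := x) ((hφ.differentiable (by simp)) x) k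
      have hd2 : HasDerivAt (fun s : ℝ => φ (G.mul x (-(s • G.e k)))) (-(G.X k φ x)) 0 := by
        have h1 : HasDerivAt (fun t : ℝ => φ (G.mul x (t • G.e k))) (G.X k φ x) (-(0 : ℝ)) := by
          rw [neg_zero]; exact hd
        have h2 := h1.scomp (0 : ℝ) (hasDerivAt_neg' (0 : ℝ))
        simpa [Function.comp_def, neg_smul] using h2
      have h3 := hd2.tendsto_slope_zero
      simpa [G.mul_zero] using h3
  have E : ∀ t : ℝ, ∫ x, (t⁻¹ * (u (G.mul x (t • G.e k)) - u x)) * φ x =
      ∫ x, u x * (t⁻¹ * (φ (G.mul x (-(t • G.e k))) - φ x)) := by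
    intro t
    have i1 : Integrable (fun x => u x * φ (G.mul x (-(t • G.e k)))) := by
      refine (huc.mul (hφ.continuous.comp (G.continuous_right _))).integrable_of_hasCompactSupport ?_
      have : HasCompactSupport (fun x => φ (G.mul x (-(t • G.e k)))) :=
        hc.comp_homeomorph (G.homeoR (-(t • G.e k)))
      exact this.mul_left
    have i2 : Integrable (fun x => u x * φ x) :=
      (huc.mul hφ.continuous).integrable_of_hasCompactSupport hc.mul_left
    have i3 : Integrable (fun x => u (G.mul x (t • G.e k)) * φ x) :=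
      ((huc.comp (G.continuous_right _)).mul hφ.continuous).integrable_of_hasCompactSupport
        hc.mul_left
    have e1 : ∫ x, u (G.mul x (t • G.e k)) * φ x = ∫ x, u x * φ (G.mul x (-(t • G.e k))) := by
      have h1 := (G.mp_right (t • G.e k)).integral_comp
        (G.homeoR (t • G.e k)).measurableEmbedding (fun x => u x * φ (G.mul x (-(t • G.e k))))
      rw [← h1]
      refine integral_congr_ae (Eventually.of_forall fun x => ?_)
      simp only [G.mul_mul_neg]
    have e2 : ∫ x, (t⁻¹ * (u (G.mul x (t • G.e k)) - u x)) * φ x =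
        t⁻¹ * ((∫ x, u (G.mul x (t • G.e k)) * φ x) - ∫ x, u x * φ x) := by
      rw [← integral_sub i3 i2, ← integral_const_mul]
      refine integral_congr_ae (Eventually.of_forall fun x => ?_)
      simp only
      ring
    have e3 : ∫ x, u x * (t⁻¹ * (φ (G.mul x (-(t • G.e k))) - φ x)) =
        t⁻¹ * ((∫ x, u x * φ (G.mul x (-(t • G.e k)))) - ∫ x, u x * φ x) := by
      rw [← integral_sub i1 i2, ← integral_const_mul]
      refine integral_congr_ae (Eventually.of_forall fun x => ?_)
      simp only
      ring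
    rw [e2, e3, e1]
  have hB' := B.congr (fun t => (E t).symm)
  have hlim := tendsto_nhds_unique A hB'
  rw [hlim, ← integral_neg]
  refine integral_congr_ae (Eventually.of_forall fun x => ?_)
  simp only
  ring

theorem desc_grad (G : Carnot N m) {A : Hv m → Hv m} {u : Pt N → ℝ} {F : Pt N → Hv m}
    (hu : GS G A u F) (hdep : ∀ x y : Pt N, (∀ k, x (G.hor k) = y (G.hor k)) → u x = u y) :
    ∃ (U : Pt m → ℝ) (F' : Pt m → Hv m), Continuous U ∧ HW (euc m) 2 univ U F' ∧
      (∀ᵐ z, ‖F' z‖ ≤ 1) ∧ (∀ x : Pt N, u x = U (fun k => x (G.hor k))) ∧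
      ∀ᵐ x : Pt N, F x = F' (fun k => x (G.hor k)) := by
  set ι : Pt m → Pt N := fun z => Function.extend G.hor z 0 with hι
  have hιk : ∀ z k, ι z (G.hor k) = z k := fun z k => G.hor_inj.extend_apply z 0 k
  set U : Pt m → ℝ := fun z => u (ι z) with hU
  have huU : ∀ x : Pt N, u x = U (fun k => x (G.hor k)) := fun x =>
    hdep _ _ fun k => (hιk (fun k => x (G.hor k)) k).symm
  have hwalk := walk G hu.lip hdep
  have hUlip1 : ∀ z z' : Pt m, |U z - U z'| ≤ ∑ k, |z' k - z k| := by
    intro z z'
    have h1 := hwalk (ι z) (ι z')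
    simp only [hιk] at h1
    exact h1
  have hUlip : LipschitzWith (m : NNReal) U := by
    refine LipschitzWith.of_dist_le_mul fun z z' => ?_
    rw [Real.dist_eq]
    refine (hUlip1 z z').trans ?_
    have h2 : ∀ k ∈ (Finset.univ : Finset (Fin m)), |z' k - z k| ≤ dist z z' := by
      intro k _
      rw [← Real.dist_eq, dist_comm]
      exact dist_le_pi_dist z z' k
    refine (Finset.sum_le_card_nsmul _ _ _ h2).trans ?_
    simp
  have hUc : Continuous U := hUlip.continuous
  set F' : Pt m → Hv m := fun z => WithLp.toLp 2 (fun k => lineDeriv ℝ U z (Pi.single k 1)) with hF'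
  have hF'k : ∀ z k, F' z k = lineDeriv ℝ U z (Pi.single k 1) := fun z k => rfl
  have hF'bd : ∀ z k, |F' z k| ≤ m := by
    intro z k
    rw [hF'k, ← Real.norm_eq_abs]
    refine (norm_lineDeriv_le_of_lipschitz ℝ hUlip).trans ?_
    have h2 := norm_single_le k
    have h3 : (0 : ℝ) ≤ m := Nat.cast_nonneg m
    calc ((m : NNReal) : ℝ) * ‖(Pi.single k 1 : Pt m)‖ ≤ ((m : NNReal) : ℝ) * 1 := by gcongr
      _ = m := by simp
  have hF'meask : ∀ k, Measurable fun z => F' z k := fun k => measurable_lineDeriv hUc
  have hF'meas : Measurable F' := by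
    have : Measurable (fun z => fun k => F' z k) := measurable_pi_lambda _ hF'meask
    exact (MeasurableEquiv.toLp 2 (Fin m → ℝ)).measurable.comp this
  set Mb : ℝ := √(∑ _k : Fin m, (m : ℝ) ^ 2) with hMb
  have hF'norm : ∀ z, ‖F' z‖ ≤ Mb := by
    intro z
    rw [EuclideanSpace.norm_eq, hMb]
    refine Real.sqrt_le_sqrt (Finset.sum_le_sum fun k _ => ?_)
    have h1 := hF'bd z k
    rw [Real.norm_eq_abs]
    exact pow_le_pow_left₀ (abs_nonneg _) h1 2
  have hF'sm : AEStronglyMeasurable F' volume := hF'meas.aestronglyMeasurable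
  have hproj : Measurable (fun (x : Pt N) (k : Fin m) => x (G.hor k)) := by fun_prop
  have hHW' : HW (euc m) 2 univ U F' := by
    refine ⟨lqloc_cont hUc, lqloc_bdd hF'sm hF'norm, ?_⟩
    intro φ hφ k
    obtain ⟨D, hD⟩ := ContDiff.lipschitzWith_of_hasCompactSupport hφ.cpt hφ.smooth (by simp)
    have h1 := hUlip.integral_lineDeriv_mul_eq (μ := volume) hD hφ.cpt (Pi.single k 1)
    have h2 : ∀ x, (euc m).X k φ x = lineDeriv ℝ φ x (Pi.single k 1) := fun x => rfl
    simp only [h2]
    have h3 : ∫ x, F' x k * φ x = ∫ x, lineDeriv ℝ U x (Pi.single k 1) * φ x := rfl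
    rw [h3, h1, ← integral_neg]
    refine integral_congr_ae (Eventually.of_forall fun x => ?_)
    simp only [lineDeriv_neg]
    ring
  have hHW : HW G 2 univ u (fun x => F' (fun k => x (G.hor k))) := by
    refine ⟨hu.sol.lq, lqloc_bdd (hF'meas.comp hproj).aestronglyMeasurable
      (fun x => hF'norm _), ?_⟩
    intro φ hφ k
    have h1 := weak_lift G hUlip hφ.smooth hφ.cpt k
    simp only [← huU] at h1
    exact h1
  have hae : ∀ᵐ x : Pt N, F x = F' (fun k => x (G.hor k)) := by
    have h1 := HW.unique isOpen_univ (by norm_num) hu.sol.toHW hHW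
    filter_upwards [h1] with x hx
    exact hx (mem_univ _)
  refine ⟨U, F', hUc, hHW', ?_, huU, hae⟩
  refine ae_of_proj G (P := fun z => ‖F' z‖ ≤ 1) ?_
  filter_upwards [hae, hu.bd] with x h1 h2
  rw [← h1]
  exact h2

end Pool.Agent.CG
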