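import Pool.Agent.CG.H.Base
import Pool.Agent.CG.Euc

/-!
# CG-H-Desc2: descent of the equation to the horizontal coordinates
PLAN.  Let `ψ` be a test function on `ℝ^m`, `χ : ℝ → ℝ` a fixed smooth bump (`χ = 1` on `[-1,1]`, support in
`[-2,2]`, `0 ≤ χ ≤ 1`), `V = {i | deg i ≠ 1}` and `φ_R x = ψ (π x) ∏_{i ∈ V} χ (x i / R^{deg i})`, `R ≥ 1`,
a test function on `G`.  `grad φ_R x = (∏ χ) (grad_{euc} ψ) (π x) + ψ (π x) grad (∏ χ)`
(X_mul; `X_k` of a function of `π x` is `∂_k` by `mul_apply_hor`).  On the support of `φ_R` all coordinates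
satisfy `|x i| ≤ C R^{deg i}`, so `|X_k (x ↦ x i)| = |vf k x i| ≤ C R^{deg i - 1}` (homogeneity:
`vf k (δ_R y) i = R^{deg i - 1} vf k y i`, and `y = δ_{1/R} x` stays in a compact set); hence
`‖grad ∏ χ‖ ≤ C / R` there.  The equation gives, with Fubini
(`volume_preserving_piEquivPiSubtypeProd` for the predicate `deg i = 1`, and the equivalence
`{i // deg i = 1} ≃ Fin m` from `hor`; `∫ f (π x) ∏_{i ∈ V} h_i (x i) dx = (∫ f) ∏ ∫ h_i`),
`|(∫_{ℝ^m} ⟨A F', grad ψ⟩) ∏_{i ∈ V} R^{deg i} ∫ χ| ≤ (C/R) ∏_{i ∈ V} R^{deg i}`; divide, `R → ∞`.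
-/

set_option autoImplicit false

namespace Pool.Agent.CG

open MeasureTheory Set Filter Topology
open scoped ContDiff ENNReal

variable {N m : ℕ}

private noncomputable def eqvHor (G : Carnot N m) : Fin m ≃ {i : Fin N // G.deg i = 1} :=
  Equiv.ofBijective (fun k => ⟨G.hor k, (G.hor_iff _).2 ⟨k, rfl⟩⟩)
    ⟨fun _ _ h => G.hor_inj (congrArg Subtype.val h), fun ⟨i, hi⟩ => by
      obtain ⟨k, hk⟩ := (G.hor_iff i).1 hi
      exact ⟨k, Subtype.ext hk⟩⟩

private theorem split_hor (G : Carnot N m) (f : Pt m → ℝ) (h : Fin N → ℝ → ℝ) (x : Pt N) :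
    f (fun k => x (G.hor k)) * ∏ i ∈ Finset.univ.filter (fun i => G.deg i ≠ 1), h i (x i) =
    (fun z : ({i : Fin N // G.deg i = 1} → ℝ) × ({i : Fin N // ¬ G.deg i = 1} → ℝ) =>
      f (fun k => z.1 (eqvHor G k)) * ∏ i : {i : Fin N // ¬ G.deg i = 1}, h i (z.2 i))
      (MeasurableEquiv.piEquivPiSubtypeProd (fun _ => ℝ) (fun i => G.deg i = 1) x) := by
  have h1 : ∏ i ∈ Finset.univ.filter (fun i => G.deg i ≠ 1), h i (x i) =
      ∏ i : {i : Fin N // ¬ G.deg i = 1}, h i (x i) :=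
    Finset.prod_subtype _ (fun i => by simp) _
  rw [h1]
  rfl

private theorem hor_part (G : Carnot N m) (f : Pt m → ℝ) :
    ∫ y : {i : Fin N // G.deg i = 1} → ℝ, f (fun k => y (eqvHor G k)) = ∫ z, f z := by
  have mp := volume_measurePreserving_piCongrLeft
    (fun _ : {i : Fin N // G.deg i = 1} => ℝ) (eqvHor G)
  rw [← mp.integral_comp' (fun y : {i : Fin N // G.deg i = 1} → ℝ => f (fun k => y (eqvHor G k)))]
  congr 1
  funext z
  congr 1
  funext k
  exact Equiv.piCongrLeft_apply_apply _ _ _ _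

/-- Fubini for products of a function of the horizontal coordinates and one-variable functions of the
others. -/
theorem fubini_hor (G : Carnot N m) (f : Pt m → ℝ) (h : Fin N → ℝ → ℝ) :
    ∫ x : Pt N, f (fun k => x (G.hor k)) *
        ∏ i ∈ Finset.univ.filter (fun i => G.deg i ≠ 1), h i (x i) =
      (∫ z, f z) * ∏ i ∈ Finset.univ.filter (fun i => G.deg i ≠ 1), ∫ t, h i t := by
  have mp := volume_preserving_piEquivPiSubtypeProd (fun _ : Fin N => ℝ) (fun i => G.deg i = 1)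
  simp_rw [split_hor G f h]
  rw [mp.integral_comp' (fun z : ({i : Fin N // G.deg i = 1} → ℝ) ×
    ({i : Fin N // ¬ G.deg i = 1} → ℝ) =>
      f (fun k => z.1 (eqvHor G k)) * ∏ i : {i : Fin N // ¬ G.deg i = 1}, h i (z.2 i)),
    Measure.volume_eq_prod, integral_prod_mul (fun y : {i : Fin N // G.deg i = 1} → ℝ =>
      f (fun k => y (eqvHor G k))) (fun y : {i : Fin N // ¬ G.deg i = 1} → ℝ =>
        ∏ i : {i : Fin N // ¬ G.deg i = 1}, h i (y i)), hor_part,
    integral_fintype_prod_volume_eq_prod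
      (fun (i : {i : Fin N // ¬ G.deg i = 1}) (t : ℝ) => h i t)]
  congr 1
  exact (Finset.prod_subtype _ (fun i => by simp) (fun i => ∫ t, h i t)).symm

private theorem integrable_hor (G : Carnot N m) {f : Pt m → ℝ} {h : Fin N → ℝ → ℝ}
    (hf : Integrable f) (hh : ∀ i, Integrable (h i)) :
    Integrable (fun x : Pt N => f (fun k => x (G.hor k)) *
        ∏ i ∈ Finset.univ.filter (fun i => G.deg i ≠ 1), h i (x i)) := by
  have mp := volume_preserving_piEquivPiSubtypeProd (fun _ : Fin N => ℝ) (fun i => G.deg i = 1)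
  have mp2 := volume_measurePreserving_piCongrLeft
    (fun _ : {i : Fin N // G.deg i = 1} => ℝ) (eqvHor G)
  have h1 : Integrable (fun y : {i : Fin N // G.deg i = 1} → ℝ =>
      f (fun k => y (eqvHor G k))) := by
    rw [← mp2.integrable_comp_emb (MeasurableEquiv.measurableEmbedding _)]
    convert hf using 1
    funext z
    show f _ = f _
    congr 1
    funext k
    exact Equiv.piCongrLeft_apply_apply _ _ _ _
  have h2 : Integrable (fun y : {i : Fin N // ¬ G.deg i = 1} → ℝ =>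
      ∏ i : {i : Fin N // ¬ G.deg i = 1}, h i (y i)) :=
    Integrable.fintype_prod (fun i => hh i)
  have h3 := h1.mul_prod h2
  have h4 := (mp.integrable_comp_emb (MeasurableEquiv.measurableEmbedding _)).2 h3
  have h5 : (fun x : Pt N => f (fun k => x (G.hor k)) *
        ∏ i ∈ Finset.univ.filter (fun i => G.deg i ≠ 1), h i (x i)) =
      (fun z : ({i : Fin N // G.deg i = 1} → ℝ) × ({i : Fin N // ¬ G.deg i = 1} → ℝ) =>
        f (fun k => z.1 (eqvHor G k)) * ∏ i : {i : Fin N // ¬ G.deg i = 1}, h i (z.2 i)) ∘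
      (MeasurableEquiv.piEquivPiSubtypeProd (fun _ => ℝ) (fun i => G.deg i = 1)) :=
    funext (split_hor G f h)
  rw [h5]
  exact h4

private theorem X_hor (G : Carnot N m) (ψ : Pt m → ℝ) (k : Fin m) (x : Pt N) :
    G.X k (fun y => ψ (fun j => y (G.hor j))) x = (euc m).X k ψ (fun j => x (G.hor j)) := by
  have key : ∀ t : ℝ, (fun j => (G.mul x (t • G.e k)) (G.hor j)) =
      (euc m).mul (fun j => x (G.hor j)) (t • (euc m).e k) := by
    intro t
    funext j
    rw [G.mul_apply_hor]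
    show x (G.hor j) + t * G.e k (G.hor j) = x (G.hor j) + t * (euc m).e k j
    rw [G.e_apply, (euc m).e_apply]
    have : (G.hor j = G.hor k) ↔ (j = (euc m).hor k) := G.hor_inj.eq_iff
    simp only [this]
  show deriv (fun t : ℝ => ψ (fun j => (G.mul x (t • G.e k)) (G.hor j))) 0 =
    deriv (fun t : ℝ => ψ ((euc m).mul (fun j => x (G.hor j)) (t • (euc m).e k))) 0
  simp only [key]

theorem desc_eqn (G : Carnot N m) {A : Hv m → Hv m} (hA : Continuous A) {F : Pt N → Hv m}
    {F' : Pt m → Hv m} (hm : AEStronglyMeasurable F' volume) (hb : ∀ᵐ z, ‖F' z‖ ≤ 1)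
    (hF : ∀ᵐ x : Pt N, F x = F' (fun k => x (G.hor k)))
    (h0 : ∀ φ : Pt N → ℝ, Test univ φ → ∫ x, inner ℝ (A (F x)) (G.grad φ x) = 0)
    (ψ : Pt m → ℝ) (hψ : Test univ ψ) : ∫ z, inner ℝ (A (F' z)) ((euc m).grad ψ z) = 0 := by
  classical
  -- the bump function
  let χ : ContDiffBump (0 : ℝ) := ⟨1, 2, one_pos, one_lt_two⟩
  have χ0 : ∀ t : ℝ, 2 ≤ |t| → χ t = 0 := fun t ht => χ.zero_of_le_dist (by
    rw [Real.dist_eq, sub_zero]
    exact ht)
  set V : Finset (Fin N) := Finset.univ.filter (fun i => G.deg i ≠ 1) with hV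
  let H : Pt N → ℝ := fun y => ∏ i ∈ V, χ (y i)
  have Hsm : ContDiff ℝ ∞ H := contDiff_prod fun i _ =>
    (χ.contDiff (n := (⊤ : ℕ∞))).comp (contDiff_apply ℝ ℝ i)
  have Xc : ∀ k, Continuous (G.X k H) := fun k => (G.smooth_X Hsm k).continuous
  have Xz : ∀ k (y : Pt N) i, i ∈ V → 2 < |y i| → G.X k H y = 0 := by
    intro k y i hi hy
    have hd : DifferentiableAt ℝ H y := (Hsm.differentiable (by simp)).differentiableAt
    rw [G.X_eq hd k]
    have h1 : H =ᶠ[𝓝 y] fun _ => (0 : ℝ) := by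
      have h2 : ∀ᶠ y' : Pt N in 𝓝 y, 2 < |y' i| :=
        (continuous_abs.comp (continuous_apply i)).continuousAt.eventually (lt_mem_nhds hy)
      filter_upwards [h2] with y' hy'
      exact Finset.prod_eq_zero hi (χ0 _ hy'.le)
    rw [h1.fderiv_eq]
    simp
  -- the support of ψ
  obtain ⟨M, hM⟩ : ∃ M : ℝ, tsupport ψ ⊆ Metric.closedBall 0 M :=
    hψ.cpt.isCompact.isBounded.subset_closedBall 0
  have hM' : ∀ z, ψ z ≠ 0 → ∀ k, |z k| ≤ M := by
    intro z hz k
    have h1 := hM (subset_tsupport ψ (Function.mem_support.2 hz))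
    rw [mem_closedBall_zero_iff] at h1
    exact (norm_le_pi_norm z k).trans h1
  let K0 : Set (Pt N) := Set.pi univ fun _ => Icc (-(max 2 M)) (max 2 M)
  have hK0 : IsCompact K0 := isCompact_univ_pi fun _ => isCompact_Icc
  have hCk : ∀ k, ∃ C : ℝ, ∀ y ∈ K0, ‖G.X k H y‖ ≤ C := fun k =>
    hK0.exists_bound_of_continuousOn (Xc k).continuousOn
  choose C hC using hCk
  have hC0 : ∀ k, 0 ≤ C k := fun k => by
    refine (norm_nonneg _).trans (hC k 0 fun i _ => ?_)
    have : (0 : ℝ) ≤ max 2 M := le_max_of_le_left (by norm_num)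
    exact ⟨by simp, by simp⟩
  -- the indicator
  let J : ℝ → ℝ := Set.indicator (Icc (-2) 2) fun _ => 1
  have J0 : ∀ t, 0 ≤ J t := fun t => Set.indicator_nonneg (fun _ _ => zero_le_one) t
  have Jint : Integrable J := (integrable_indicator_iff measurableSet_Icc).2
    (integrableOn_const (by simp) )
  have Jz : ∀ t, J t ≠ 0 → |t| ≤ 2 := fun t ht => by
    have h1 : t ∈ Icc (-2 : ℝ) 2 := Set.mem_of_indicator_ne_zero ht
    exact abs_le.2 h1
  have J1 : ∀ t, |t| ≤ 2 → J t = 1 := fun t ht => Set.indicator_of_mem (s := Icc (-2 : ℝ) 2) (abs_le.1 ht) _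
  -- bound of A
  obtain ⟨a, ha⟩ : ∃ a : ℝ, ∀ ξ ∈ Metric.closedBall (0 : Hv m) 1, ‖A ξ‖ ≤ a :=
    (isCompact_closedBall (0 : Hv m) 1).exists_bound_of_continuousOn hA.continuousOn
  have ha0 : 0 ≤ a := (norm_nonneg _).trans (ha 0 (by simp))
  have hAm : AEStronglyMeasurable (fun z => A (F' z)) volume := hA.comp_aestronglyMeasurable hm
  have hAb : ∀ᵐ z, ‖A (F' z)‖ ≤ a := by
    filter_upwards [hb] with z hz
    exact ha _ (by rwa [mem_closedBall_zero_iff])
  have hAk : ∀ k, AEStronglyMeasurable (fun z => (A (F' z)) k) volume := fun k =>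
    (EuclideanSpace.proj (𝕜 := ℝ) k).continuous.comp_aestronglyMeasurable hAm
  have hint : ∀ (ρ : Pt m → ℝ), Continuous ρ → HasCompactSupport ρ → ∀ k,
      Integrable (fun z => ρ z * (A (F' z)) k) := by
    intro ρ hρ hρc k
    have h1 : Integrable ρ := hρ.integrable_of_hasCompactSupport hρc
    refine Integrable.mono' (h1.norm.mul_const a)
      (hρ.aestronglyMeasurable.mul (hAk k)) ?_
    filter_upwards [hAb] with z hz
    rw [norm_mul]
    exact mul_le_mul_of_nonneg_left ((PiLp.norm_apply_le _ k).trans hz) (norm_nonneg _)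
  have hψX : ∀ k, Test univ ((euc m).X k ψ) := fun k => (euc m).test_X hψ k
  let f1 : Fin m → Pt m → ℝ := fun k z => (euc m).X k ψ z * (A (F' z)) k
  let g : Fin m → Pt m → ℝ := fun k z => ψ z * (A (F' z)) k
  have f1i : ∀ k, Integrable (f1 k) := fun k =>
    hint _ (hψX k).smooth.continuous (hψX k).cpt k
  have gi : ∀ k, Integrable (g k) := fun k => hint _ hψ.smooth.continuous hψ.cpt k
  have hI : ∫ z, inner ℝ (A (F' z)) ((euc m).grad ψ z) = ∑ k, ∫ z, f1 k z := by
    rw [← integral_finsetSum _ fun k _ => f1i k]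
    congr 1
  rw [hI]
  set I : ℝ := ∑ k, ∫ z, f1 k z with hIdef
  -- scaling
  have scal : ∀ (h : ℝ → ℝ) (R : ℝ), 1 ≤ R → ∏ i ∈ V, ∫ t, h ((R⁻¹) ^ G.deg i * t) =
      (∏ i ∈ V, R ^ G.deg i) * (∫ t, h t) ^ V.card := by
    intro h R hR
    rw [← Finset.prod_const, ← Finset.prod_mul_distrib]
    refine Finset.prod_congr rfl fun i _ => ?_
    rw [Measure.integral_comp_mul_left, smul_eq_mul]
    congr 1
    rw [inv_pow, inv_inv, abs_of_nonneg (by positivity)]
  -- the main inequality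
  have main : ∀ R : ℝ, 1 ≤ R → |I| * (∫ t, χ t) ^ V.card ≤
      R⁻¹ * ∑ k, C k * ((∫ z, |g k z|) * (∫ t, J t) ^ V.card) := by
    intro R hR
    have hR0 : 0 < R := by linarith
    have hRi : R⁻¹ ≤ 1 := inv_le_one_of_one_le₀ hR
    have hRi0 : 0 < R⁻¹ := inv_pos.2 hR0
    let φ : Pt N → ℝ := fun x => ψ (fun j => x (G.hor j)) * H (G.del R⁻¹ x)
    have hπ : ContDiff ℝ ∞ (fun (x : Pt N) (j : Fin m) => x (G.hor j)) := by
      rw [contDiff_pi]
      intro j
      exact contDiff_apply ℝ ℝ _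
    have sm1 : ContDiff ℝ ∞ (fun x : Pt N => ψ (fun j => x (G.hor j))) := hψ.smooth.comp hπ
    have sm2 : ContDiff ℝ ∞ (fun x : Pt N => H (G.del R⁻¹ x)) := Hsm.comp (G.smooth_del _)
    have hφ : Test univ φ := by
      refine ⟨sm1.mul sm2, ?_, subset_univ _⟩
      refine HasCompactSupport.intro (K := Set.pi univ fun i : Fin N =>
        Icc (-(max M (2 * R ^ G.deg i))) (max M (2 * R ^ G.deg i)))
        (isCompact_univ_pi fun _ => isCompact_Icc) fun x hx => ?_
      by_contra hne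
      apply hx
      have n1 : ψ (fun j => x (G.hor j)) ≠ 0 := left_ne_zero_of_mul hne
      have n2 : H (G.del R⁻¹ x) ≠ 0 := right_ne_zero_of_mul hne
      intro i _
      change x i ∈ Icc (-(max M (2 * R ^ G.deg i))) (max M (2 * R ^ G.deg i))
      rw [Set.mem_Icc, ← abs_le]
      by_cases hi : G.deg i = 1
      · obtain ⟨k, rfl⟩ := (G.hor_iff i).1 hi
        exact (hM' _ n1 k).trans (le_max_left _ _)
      · have hiV : i ∈ V := by rw [hV, Finset.mem_filter]; exact ⟨Finset.mem_univ _, hi⟩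
        have h1 : χ (G.del R⁻¹ x i) ≠ 0 := fun h1 => n2 (Finset.prod_eq_zero hiV h1)
        have h2 : |G.del R⁻¹ x i| < 2 := by
          by_contra h3
          exact h1 (χ0 _ (not_lt.1 h3))
        rw [G.del_apply, abs_mul, inv_pow, abs_inv, abs_of_pos (pow_pos hR0 _),
          inv_mul_lt_iff₀ (pow_pos hR0 _)] at h2
        refine le_trans ?_ (le_max_right _ _)
        linarith
    have e0 := h0 φ hφ
    -- the two terms
    let T1 : Fin m → Pt N → ℝ := fun k x => f1 k (fun j => x (G.hor j)) *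
      ∏ i ∈ V, χ ((R⁻¹) ^ G.deg i * x i)
    let T2 : Fin m → Pt N → ℝ := fun k x => g k (fun j => x (G.hor j)) * G.X k H (G.del R⁻¹ x)
    let E : Fin m → Pt N → ℝ := fun k x => g k (fun j => x (G.hor j)) *
      ∏ i ∈ V, J ((R⁻¹) ^ G.deg i * x i)
    have hne : ∀ i : Fin N, (R⁻¹) ^ G.deg i ≠ 0 := fun i => (pow_pos hRi0 _).ne'
    have T1i : ∀ k, Integrable (T1 k) := fun k =>
      integrable_hor G (f1i k) (h := fun i t => χ ((R⁻¹) ^ G.deg i * t)) fun i =>
        (χ.integrable (μ := volume)).comp_mul_left' (hne i)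
    have Ei : ∀ k, Integrable (E k) := fun k =>
      integrable_hor G (gi k) (h := fun i t => J ((R⁻¹) ^ G.deg i * t)) fun i =>
        Jint.comp_mul_left' (hne i)
    have T2E : ∀ k x, T2 k x = E k x * G.X k H (G.del R⁻¹ x) := by
      intro k x
      show g k (fun j => x (G.hor j)) * G.X k H (G.del R⁻¹ x) =
        g k (fun j => x (G.hor j)) * (∏ i ∈ V, J ((R⁻¹) ^ G.deg i * x i)) *
          G.X k H (G.del R⁻¹ x)
      by_cases hx : ∀ i ∈ V, |(R⁻¹) ^ G.deg i * x i| ≤ 2
      · rw [Finset.prod_eq_one fun i hi => J1 _ (hx i hi), mul_one]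
      · push Not at hx
        obtain ⟨i, hi, hx⟩ := hx
        rw [Xz k (G.del R⁻¹ x) i hi (by rw [G.del_apply]; exact hx), mul_zero, mul_zero]
    have T2b : ∀ k x, ‖T2 k x‖ ≤ C k * ‖E k x‖ := by
      intro k x
      rw [T2E, norm_mul, mul_comm]
      by_cases hE : E k x = 0
      · rw [hE]; simp
      · refine mul_le_mul_of_nonneg_right (hC k _ fun i _ => ?_) (norm_nonneg _)
        have n1 : g k (fun j => x (G.hor j)) ≠ 0 := left_ne_zero_of_mul hE
        have n2 : ∏ i ∈ V, J ((R⁻¹) ^ G.deg i * x i) ≠ 0 := right_ne_zero_of_mul hE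
        change G.del R⁻¹ x i ∈ Icc (-(max 2 M)) (max 2 M)
        rw [Set.mem_Icc, ← abs_le]
        by_cases hi : G.deg i = 1
        · obtain ⟨l, rfl⟩ := (G.hor_iff i).1 hi
          rw [G.del_apply, hi, pow_one, abs_mul, abs_of_pos hRi0]
          have h1 := hM' _ (left_ne_zero_of_mul n1) l
          calc R⁻¹ * |x (G.hor l)| ≤ 1 * |x (G.hor l)| :=
                mul_le_mul_of_nonneg_right hRi (abs_nonneg _)
            _ = |x (G.hor l)| := one_mul _
            _ ≤ M := h1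
            _ ≤ max 2 M := le_max_right _ _
        · have hiV : i ∈ V := by rw [hV, Finset.mem_filter]; exact ⟨Finset.mem_univ _, hi⟩
          rw [G.del_apply]
          exact (Jz _ (Finset.prod_ne_zero_iff.1 n2 i hiV)).trans (le_max_left _ _)
    have T2i : ∀ k, Integrable (T2 k) := by
      intro k
      refine Integrable.mono' ((Ei k).norm.const_mul (C k)) ?_ (Eventually.of_forall (T2b k))
      have h1 : T2 k = fun x => E k x * G.X k H (G.del R⁻¹ x) := funext (T2E k)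
      rw [h1]
      exact (Ei k).aestronglyMeasurable.mul
        ((Xc k).comp (G.continuous_del _)).aestronglyMeasurable
    have e1 : ∫ x, inner ℝ (A (F x)) (G.grad φ x) = ∫ x, ∑ k, (T1 k x + R⁻¹ * T2 k x) := by
      apply integral_congr_ae
      filter_upwards [hF] with x hx
      rw [hx, PiLp.inner_apply]
      refine Finset.sum_congr rfl fun k _ => ?_
      have h1 : G.X k φ x = (euc m).X k ψ (fun j => x (G.hor j)) * H (G.del R⁻¹ x) +
          ψ (fun j => x (G.hor j)) * (R⁻¹ * G.X k H (G.del R⁻¹ x)) := by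
        have h2 := G.X_mul (φ := fun y : Pt N => ψ (fun j => y (G.hor j)))
          (ψ := fun y : Pt N => H (G.del R⁻¹ y)) (x := x)
          ((sm1.differentiable (by simp)).differentiableAt)
          ((sm2.differentiable (by simp)).differentiableAt) k
        rw [X_hor, G.X_del hRi0 H k x] at h2
        exact h2
      show G.X k φ x * (A (F' fun j => x (G.hor j))) k = _
      rw [h1]
      show _ = (euc m).X k ψ (fun j => x (G.hor j)) * (A (F' fun j => x (G.hor j))) k *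
        (∏ i ∈ V, χ ((R⁻¹) ^ G.deg i * x i)) + R⁻¹ * (ψ (fun j => x (G.hor j)) *
          (A (F' fun j => x (G.hor j))) k * G.X k H (G.del R⁻¹ x))
      have h3 : H (G.del R⁻¹ x) = ∏ i ∈ V, χ ((R⁻¹) ^ G.deg i * x i) := rfl
      rw [h3]
      ring
    have e1' : ∫ x, ∑ k, (T1 k x + R⁻¹ * T2 k x) = ∑ k, ∫ x, (T1 k x + R⁻¹ * T2 k x) :=
      integral_finsetSum _ fun k _ => (T1i k).add ((T2i k).const_mul R⁻¹)
    rw [e1, e1'] at e0
    have e2 : ∀ k, ∫ x, (T1 k x + R⁻¹ * T2 k x) = (∫ x, T1 k x) + R⁻¹ * ∫ x, T2 k x := fun k => by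
      rw [integral_add (T1i k) ((T2i k).const_mul _), integral_const_mul]
    have e3 : ∀ k, ∫ x, T1 k x = (∫ z, f1 k z) * ((∏ i ∈ V, R ^ G.deg i) *
        (∫ t, χ t) ^ V.card) := fun k => by
      have h1 := fubini_hor G (f1 k) (fun i t => χ ((R⁻¹) ^ G.deg i * t))
      rw [scal χ R hR] at h1
      exact h1
    have e4 : ∀ k, |∫ x, T2 k x| ≤ C k * ((∫ z, |g k z|) * ((∏ i ∈ V, R ^ G.deg i) *
        (∫ t, J t) ^ V.card)) := fun k => by
      have h1 := norm_integral_le_of_norm_le ((Ei k).norm.const_mul (C k))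
        (Eventually.of_forall (T2b k))
      rw [integral_const_mul] at h1
      have h2 : ∫ x, ‖E k x‖ = (∫ z, |g k z|) * ((∏ i ∈ V, R ^ G.deg i) *
        (∫ t, J t) ^ V.card) := by
        have h3 := fubini_hor G (fun z => |g k z|) (fun i t => J ((R⁻¹) ^ G.deg i * t))
        rw [scal J R hR] at h3
        rw [← h3]
        congr 1
        funext x
        show ‖g k (fun j => x (G.hor j)) * ∏ i ∈ V, J ((R⁻¹) ^ G.deg i * x i)‖ = _
        rw [norm_mul, Real.norm_eq_abs, Real.norm_eq_abs,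
          abs_of_nonneg (Finset.prod_nonneg fun i _ => J0 _)]
      rw [h2] at h1
      exact h1
    have hP : 0 < ∏ i ∈ V, R ^ G.deg i := Finset.prod_pos fun i _ => pow_pos hR0 _
    simp only [e2, e3] at e0
    rw [Finset.sum_add_distrib, ← Finset.sum_mul, ← Finset.mul_sum, ← hIdef] at e0
    have e5 : |I| * ((∏ i ∈ V, R ^ G.deg i) * (∫ t, χ t) ^ V.card) ≤
        R⁻¹ * ∑ k, C k * ((∫ z, |g k z|) * ((∏ i ∈ V, R ^ G.deg i) *
          (∫ t, J t) ^ V.card)) := by
      have h1 : I * ((∏ i ∈ V, R ^ G.deg i) * (∫ t, χ t) ^ V.card) =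
          -(R⁻¹ * ∑ k, ∫ x, T2 k x) := by linarith
      have h2 : |I * ((∏ i ∈ V, R ^ G.deg i) * (∫ t, χ t) ^ V.card)| =
          |I| * ((∏ i ∈ V, R ^ G.deg i) * (∫ t, χ t) ^ V.card) := by
        rw [abs_mul]
        congr 1
        exact abs_of_nonneg (mul_nonneg hP.le (pow_nonneg χ.integral_pos.le _))
      rw [← h2, h1, abs_neg, abs_mul, abs_of_pos hRi0]
      refine mul_le_mul_of_nonneg_left ?_ hRi0.le
      exact (Finset.abs_sum_le_sum_abs _ _).trans (Finset.sum_le_sum fun k _ => e4 k)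
    have e6 : R⁻¹ * ∑ k, C k * ((∫ z, |g k z|) * ((∏ i ∈ V, R ^ G.deg i) *
          (∫ t, J t) ^ V.card)) = (∏ i ∈ V, R ^ G.deg i) *
          (R⁻¹ * ∑ k, C k * ((∫ z, |g k z|) * (∫ t, J t) ^ V.card)) := by
      rw [mul_left_comm]
      congr 1
      rw [Finset.mul_sum]
      exact Finset.sum_congr rfl fun k _ => by ring
    rw [e6, mul_left_comm] at e5
    exact le_of_mul_le_mul_left e5 hP
  -- conclusion
  set K : ℝ := ∑ k, C k * ((∫ z, |g k z|) * (∫ t, J t) ^ V.card) with hK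
  have hK0' : 0 ≤ K := Finset.sum_nonneg fun k _ => mul_nonneg (hC0 k)
    (mul_nonneg (integral_nonneg fun _ => abs_nonneg _)
      (pow_nonneg (integral_nonneg J0) _))
  have hc : 0 < (∫ t, χ t) ^ V.card := pow_pos χ.integral_pos _
  by_contra hI0
  have hpos : 0 < |I| * (∫ t, χ t) ^ V.card := mul_pos (abs_pos.2 hI0) hc
  set b : ℝ := |I| * (∫ t, χ t) ^ V.card with hb'
  have h1 := main (K / b + 1) (by
    have : 0 ≤ K / b := div_nonneg hK0' hpos.le
    linarith)
  have h2 : 0 < K / b + 1 := by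
    have : 0 ≤ K / b := div_nonneg hK0' hpos.le
    linarith
  rw [inv_mul_eq_div, le_div_iff₀ h2, mul_add, mul_div_cancel₀ K hpos.ne'] at h1
  linarith

end Pool.Agent.CG
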