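import Mathlib

/-!
# CG-H-Iter: the contradiction in Liouville I (pure real analysis)
PLAN.  Fix `D ≥ 1` large and `ρ_n = D 2^{n (q - r)/r}`, so that
`(e 2^{-n})^{r - q} ρ_n^{-r} = e^{r - q} D^{-r}` for every `n`.  By induction
`V n R ≤ (C' e^{r-q} D^{-r})^n c₁ (R + ∑_{i<n} (l + ρ_i))^Q`.
Together with `c₀ 2^{-N Q} ≤ V N 1`:
`c₀ ≤ c₁ ((1 + l + D) (N + 1))^Q (C' e^{r-q} D^{-r} 2^{Q + Q (q - r)/r})^N` for all `N`; choose `D` with
`C' e^{r-q} D^{-r} 2^{Q + Q (q-r)/r} ≤ 1/2`: the right side tends to `0`.  (`1 < r` so `D^{-r} → 0`.)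
-/

set_option autoImplicit false

namespace Pool.Agent.CG

open Filter Topology

theorem liou_iter (Q : ℕ) (q r l e C' c₀ c₁ : ℝ) (hr : 1 < r) (hrq : r ≤ q) (hl : 0 < l) (he : 0 < e)
    (hC' : 0 < C') (hc₀ : 0 < c₀) (hc₁ : 0 < c₁)
    (H : ∀ n₀ : ℕ, ∃ V : ℕ → ℝ → ℝ, (∀ n R, 0 < R → 0 ≤ V n R ∧ V n R ≤ c₁ * R ^ Q) ∧
      (∀ n, n < n₀ → ∀ R ρ, 0 < R → 0 < ρ → V (n + 1) R ≤
        C' * ((e * 2⁻¹ ^ n) ^ (r - q) * ρ ^ (-r)) * V n (R + l + ρ)) ∧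
      c₀ * (2⁻¹ ^ n₀) ^ Q ≤ V n₀ 1) : False := by
  have hr0 : 0 < r := by linarith
  set b : ℝ := (2 : ℝ) ^ ((q - r) / r) with hb
  have hb1 : 1 ≤ b := Real.one_le_rpow (by norm_num) (div_nonneg (by linarith) hr0.le)
  have hb0 : 0 < b := by linarith
  -- choice of `D`
  obtain ⟨D, hD0, hD⟩ : ∃ D : ℝ, 0 < D ∧ C' * e ^ (r - q) * D ^ (-r) * (2 ^ Q * b ^ Q) ≤ 1 / 2 := by
    have h1 : Tendsto (fun D : ℝ => (C' * e ^ (r - q) * (2 ^ Q * b ^ Q)) * D ^ (-r)) atTop (𝓝 0) := by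
      simpa using (tendsto_rpow_neg_atTop hr0).const_mul (C' * e ^ (r - q) * (2 ^ Q * b ^ Q))
    have h2 := h1.eventually_le_const (u := 1 / 2) (by norm_num)
    obtain ⟨D, hD1, hD2⟩ := (h2.and (eventually_gt_atTop 0)).exists
    refine ⟨D, hD2, ?_⟩
    calc C' * e ^ (r - q) * D ^ (-r) * (2 ^ Q * b ^ Q) = (C' * e ^ (r - q) * (2 ^ Q * b ^ Q)) * D ^ (-r) := by
          ring
      _ ≤ 1 / 2 := hD1
  set K : ℝ := C' * e ^ (r - q) * D ^ (-r) with hK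
  have hK0 : 0 < K := by positivity
  -- the factor
  have hfac : ∀ n : ℕ, C' * ((e * 2⁻¹ ^ n) ^ (r - q) * (D * b ^ n) ^ (-r)) = K := by
    intro n
    have h2n : (0 : ℝ) < 2⁻¹ ^ n := by positivity
    have e1 : (e * 2⁻¹ ^ n : ℝ) ^ (r - q) = e ^ (r - q) * (2⁻¹ ^ n : ℝ) ^ (r - q) :=
      Real.mul_rpow he.le h2n.le
    have e2 : (D * b ^ n) ^ (-r) = D ^ (-r) * (b ^ n) ^ (-r) :=
      Real.mul_rpow hD0.le (by positivity)
    have e3 : (b ^ n) ^ (-r) = (2⁻¹ ^ n : ℝ) ^ (q - r) := by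
      have e4 : (2⁻¹ ^ n : ℝ) = 2 ^ (-(n : ℝ)) := by
        rw [Real.rpow_neg (by norm_num), Real.rpow_natCast, inv_pow]
      have h20 : (0 : ℝ) ≤ 2 := by norm_num
      rw [e4, ← Real.rpow_natCast, hb, ← Real.rpow_mul h20, ← Real.rpow_mul h20,
        ← Real.rpow_mul h20]
      congr 1
      field_simp
    have e5 : (2⁻¹ ^ n : ℝ) ^ (r - q) * (2⁻¹ ^ n : ℝ) ^ (q - r) = 1 := by
      rw [← Real.rpow_add h2n]
      simp
    rw [e1, e2, e3, hK]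
    calc C' * (e ^ (r - q) * (2⁻¹ ^ n : ℝ) ^ (r - q) * (D ^ (-r) * (2⁻¹ ^ n : ℝ) ^ (q - r)))
        = C' * e ^ (r - q) * D ^ (-r) * ((2⁻¹ ^ n : ℝ) ^ (r - q) * (2⁻¹ ^ n : ℝ) ^ (q - r)) := by ring
      _ = C' * e ^ (r - q) * D ^ (-r) := by rw [e5, mul_one]
  -- the main inequality
  have key : ∀ N : ℕ, c₀ ≤ c₁ * (1 + l + D) ^ Q * (((N : ℝ) + 1) ^ Q * (1 / 2) ^ N) := by
    intro N
    obtain ⟨V, hV1, hV2, hV3⟩ := H N
    have hind : ∀ n : ℕ, n ≤ N → ∀ R : ℝ, 0 < R →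
        V n R ≤ K ^ n * c₁ * (R + ∑ i ∈ Finset.range n, (l + D * b ^ i)) ^ Q := by
      intro n
      induction n with
      | zero =>
        intro _ R hR
        simpa using (hV1 0 R hR).2
      | succ n ih =>
        intro hn R hR
        have hρ : 0 < D * b ^ n := by positivity
        have h1 := hV2 n (by omega) R (D * b ^ n) hR hρ
        rw [hfac n] at h1
        have h2 := ih (by omega) (R + l + D * b ^ n) (by positivity)
        calc V (n + 1) R ≤ K * V n (R + l + D * b ^ n) := h1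
          _ ≤ K * (K ^ n * c₁ * (R + l + D * b ^ n + ∑ i ∈ Finset.range n, (l + D * b ^ i)) ^ Q) :=
              mul_le_mul_of_nonneg_left h2 hK0.le
          _ = K ^ (n + 1) * c₁ * (R + ∑ i ∈ Finset.range (n + 1), (l + D * b ^ i)) ^ Q := by
              rw [Finset.sum_range_succ]
              ring
    have h3 := hind N le_rfl 1 one_pos
    have hbN : 1 ≤ b ^ N := one_le_pow₀ hb1
    have h4 : 1 + ∑ i ∈ Finset.range N, (l + D * b ^ i) ≤ (1 + l + D) * ((N : ℝ) + 1) * b ^ N := by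
      have h5 : ∑ i ∈ Finset.range N, (l + D * b ^ i) ≤ ∑ _i ∈ Finset.range N, (l + D) * b ^ N := by
        refine Finset.sum_le_sum fun i hi => ?_
        have h6 : b ^ i ≤ b ^ N := pow_le_pow_right₀ hb1 (Finset.mem_range.1 hi).le
        nlinarith [mul_le_mul_of_nonneg_left h6 hD0.le, mul_le_mul_of_nonneg_left hbN hl.le]
      rw [Finset.sum_const, Finset.card_range, nsmul_eq_mul] at h5
      have hN0 : (0 : ℝ) ≤ N := Nat.cast_nonneg N
      have h7 : (1 + l + D) * ((N : ℝ) + 1) * b ^ N = N * ((l + D) * b ^ N) + ((N : ℝ) * b ^ N + b ^ N + (l + D) * b ^ N) := by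
        ring
      rw [h7]
      have h8 : 0 ≤ (N : ℝ) * b ^ N := by positivity
      have h9 : 0 ≤ (l + D) * b ^ N := by positivity
      linarith
    have h5 : (1 + ∑ i ∈ Finset.range N, (l + D * b ^ i)) ^ Q ≤ ((1 + l + D) * ((N : ℝ) + 1) * b ^ N) ^ Q := by
      refine pow_le_pow_left₀ ?_ h4 Q
      have : 0 ≤ ∑ i ∈ Finset.range N, (l + D * b ^ i) := Finset.sum_nonneg fun i _ => by positivity
      linarith
    have h6 : c₀ * (2⁻¹ ^ N) ^ Q ≤ K ^ N * c₁ * ((1 + l + D) * ((N : ℝ) + 1) * b ^ N) ^ Q :=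
      (hV3.trans h3).trans (mul_le_mul_of_nonneg_left h5 (by positivity))
    have h7 : ((2 : ℝ) ^ N) ^ Q * (2⁻¹ ^ N) ^ Q = 1 := by
      rw [← mul_pow, ← mul_pow]
      norm_num
    have h8 : c₀ = ((2 : ℝ) ^ N) ^ Q * (c₀ * (2⁻¹ ^ N) ^ Q) := by
      calc c₀ = c₀ * (((2 : ℝ) ^ N) ^ Q * (2⁻¹ ^ N) ^ Q) := by rw [h7, mul_one]
        _ = _ := by ring
    have h9 : (K * (2 ^ Q * b ^ Q)) ^ N ≤ (1 / 2) ^ N := pow_le_pow_left₀ (by positivity) hD N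
    calc c₀ = ((2 : ℝ) ^ N) ^ Q * (c₀ * (2⁻¹ ^ N) ^ Q) := h8
      _ ≤ ((2 : ℝ) ^ N) ^ Q * (K ^ N * c₁ * ((1 + l + D) * ((N : ℝ) + 1) * b ^ N) ^ Q) :=
          mul_le_mul_of_nonneg_left h6 (by positivity)
      _ = c₁ * (1 + l + D) ^ Q * (((N : ℝ) + 1) ^ Q * (K * (2 ^ Q * b ^ Q)) ^ N) := by
          clear_value K b
          generalize 1 + l + D = A
          generalize (N : ℝ) + 1 = B
          rw [mul_pow (A * B), mul_pow A]
          ring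
      _ ≤ c₁ * (1 + l + D) ^ Q * (((N : ℝ) + 1) ^ Q * (1 / 2) ^ N) := by
          refine mul_le_mul_of_nonneg_left ?_ (by positivity)
          exact mul_le_mul_of_nonneg_left h9 (by positivity)
  have hlim : Tendsto (fun N : ℕ => c₁ * (1 + l + D) ^ Q * (((N : ℝ) + 1) ^ Q * (1 / 2) ^ N)) atTop (𝓝 0) := by
    have h1 : Tendsto (fun n : ℕ => (n : ℝ) ^ Q * (1 / 2 : ℝ) ^ n) atTop (𝓝 0) :=
      tendsto_pow_const_mul_const_pow_of_lt_one Q (by norm_num) (by norm_num)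
    have h2 := (h1.comp (tendsto_add_atTop_nat 1)).const_mul (c₁ * (1 + l + D) ^ Q * 2)
    rw [mul_zero] at h2
    refine h2.congr fun N => ?_
    simp only [Function.comp_apply]
    push_cast
    ring
  have h3 := ge_of_tendsto hlim (Eventually.of_forall key)
  linarith

end Pool.Agent.CG
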