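import Pool.Agent.CG.H.Step
import Pool.Agent.CG.H.Iter
import Pool.Agent.CG.A.Cmp

/-!
# CG-H-Layer: invariance in the direction of the layer `j ≥ 2`
`InvGt j`: every global Lipschitz solution is invariant under right multiplication by the points whose
coordinates of weight `≤ j` vanish.
PLAN (`layer_step`, for `Z ∈ layer j`, `j ≥ 2`, `InvGt j`).
(1) `u (Z x) = u (x Z)` for all solutions `u` and all `x`: put `w = (-(x Z)) (Z x)`; `mul_apply_left/right`
show that `(Z x)_i = x_i + Z_i = (x Z)_i` for `deg i ≤ j`, and then, by induction on the weight, `w_i = 0`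
for `deg i ≤ j` (`mul (x Z) w = Z x`, `mul_apply_right`); use `InvGt j`.
(2) `K = sSup {t | ∃ u F x, GS G A u F ∧ t = u (x Z) - u x}`, bounded above by `ell Z` (GS.lip:
`di x (x Z) = ell Z`), nonempty.  `Z Z = (2 : ℝ) • Z = del λ Z` with `λ = 2^{1/j}` (weights `j`).  For
every solution `u` and `x`: `u (x (Z Z)) - u x = λ (v (y Z) - v y)`, `v = λ⁻¹ u ∘ δ_λ` (GS.scale),
`y = δ_{1/λ} x`; so `u (x (Z Z)) - u x ≤ λ K`.
(3) Suppose `K > 0`; `e = (1 - λ/2) K > 0` (`λ < 2` as `j ≥ 2`).  Apply `liou_iter` with `q`, `r = q/(q-σ)`,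
`l = ell Z + 1`, `C'` of `liou_step`, `c₁ = vol (B 0 1)`, `c₀ = vol (B 0 1) (e/(4(1+e)))^Q`.  For `n₀` choose `u, x`
with `u (x Z) - u x > K - e 2^{-n₀} / 2`, translate: `u' y = u (x y)` (GS.left), and
`V n R = vol.real ({y | K - e 2^{-n} < u' (Z y) - u' y} ∩ B 0 R)`; `u₁ = u' (Z ·)` (GS.left), `u₂ = u'`.
Condition `hvan` of `liou_step` with `h = Z` and `e_n = e 2^{-n} ≤ e`: if
`w y = u' (y Z) - u' y > K - e_n`, then `w (y Z) = (u' (y (Z Z)) - u' y) - w y ≤ λ K - K + e_n ≤ K - e_n`.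
`w` is 2-Lipschitz and `w 0 > K - e_{n₀}/2`, so `w > K - e_{n₀}` on `B 0 (e_{n₀}/4)`, in particular on
`B 0 (e_{n₀} / (4 (1 + e)))`, contained in `B 0 1`; `vol_B`.
(4) So `K ≤ 0` for `Z` and `-Z`: `u (x Z) = u x`.  `inv_step`: if the coordinates of `w` of weight `≤ j - 1`
vanish, `w = mul Z w'` with `Z = part j w` and the coordinates of `w'` of weight `≤ j` vanish.
(5) `inv_one`: downward induction from `InvGt st` (there `w = 0`).
-/

set_option autoImplicit false

namespace Pool.Agent.CG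

open MeasureTheory Set Filter Topology
open scoped ContDiff ENNReal

variable {N m : ℕ}

/-- Invariance of all solutions under the points with vanishing coordinates of weight `≤ j`. -/
def InvGt (G : Carnot N m) (A : Hv m → Hv m) (j : ℕ) : Prop :=
  ∀ (u : Pt N → ℝ) (F : Pt N → Hv m), GS G A u F → ∀ x w : Pt N, (∀ i, G.deg i ≤ j → w i = 0) →
    u (G.mul x w) = u x

/-- `Z x = x Z w` with `w` of weight `> j`. -/
private theorem comm_inv (G : Carnot N m) {A : Hv m → Hv m} {j : ℕ} (hinv : InvGt G A j) {Z : Pt N}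
    (hZ : Z ∈ layerOf G.deg j) {u : Pt N → ℝ} {F : Pt N → Hv m} (hu : GS G A u F) (x : Pt N) :
    u (G.mul Z x) = u (G.mul x Z) := by
  have hZ' : ∀ i, G.deg i ≠ j → Z i = 0 := hZ
  have hw : ∀ n i, G.deg i = n → G.deg i ≤ j → G.mul (-(G.mul x Z)) (G.mul Z x) i = 0 := by
    intro n
    induction n using Nat.strong_induction_on with
    | _ n ih =>
      intro i hi hij
      have h1 : G.mul (G.mul x Z) (G.mul (-(G.mul x Z)) (G.mul Z x)) i =
          G.mul x Z i + G.mul (-(G.mul x Z)) (G.mul Z x) i := by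
        apply G.mul_apply_right
        intro k hk
        exact ih (G.deg k) (by omega) k rfl (by omega)
      rw [G.mul_neg_mul] at h1
      have h2 : G.mul x Z i = x i + Z i := by
        apply G.mul_apply_right
        intro k hk
        exact hZ' k (by omega)
      have h3 : G.mul Z x i = Z i + x i := by
        apply G.mul_apply_left
        intro k hk
        exact hZ' k (by omega)
      rw [h2, h3] at h1
      linarith
  have h := hinv u F hu (G.mul x Z) (G.mul (-(G.mul x Z)) (G.mul Z x)) (fun i hi => hw _ i rfl hi)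
  rw [G.mul_neg_mul] at h
  exact h

private theorem del_layer (G : Carnot N m) {j : ℕ} {Z : Pt N} (hZ : Z ∈ layerOf G.deg j) {t : ℝ}
    (ht : t ^ j = 2) : G.del t Z = G.mul Z Z := by
  have hZ' : ∀ i, G.deg i ≠ j → Z i = 0 := hZ
  rw [G.mul_self]
  funext i
  rw [G.del_apply, Pi.smul_apply, smul_eq_mul]
  by_cases h : G.deg i = j
  · rw [h, ht]
  · rw [hZ' i h, mul_zero, mul_zero]

private theorem diff_le (G : Carnot N m) {A : Hv m → Hv m} {u : Pt N → ℝ} {F : Pt N → Hv m}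
    (hu : GS G A u F) (Z x : Pt N) : u (G.mul x Z) - u x ≤ G.ell Z := by
  have h := hu.lip x (G.mul x Z)
  unfold Carnot.di at h
  rw [G.neg_mul_cancel] at h
  have := neg_abs_le (u x - u (G.mul x Z))
  linarith

theorem layer_step (G : Carnot N m) {q σ c C : ℝ} {A : Hv m → Hv m} (hA : MinS q σ c C A) {j : ℕ}
    (hj : 2 ≤ j) (hinv : InvGt G A j) {Z : Pt N} (hZ : Z ∈ layerOf G.deg j) {u : Pt N → ℝ}
    {F : Pt N → Hv m} (hu : GS G A u F) (x : Pt N) : u (G.mul x Z) ≤ u x := by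
  have hell0 : 0 ≤ G.ell Z := G.ell_nonneg Z
  -- the supremum
  set T : Set ℝ := {t | ∃ (u : Pt N → ℝ) (F : Pt N → Hv m) (x : Pt N), GS G A u F ∧
    t = u (G.mul x Z) - u x} with hT
  have hTb : BddAbove T := ⟨G.ell Z, by
    rintro t ⟨u, F, x, hu, rfl⟩
    exact diff_le G hu Z x⟩
  have hTn : T.Nonempty := ⟨_, u, F, x, hu, rfl⟩
  set K : ℝ := sSup T with hK
  have hle : ∀ (u : Pt N → ℝ) (F : Pt N → Hv m), GS G A u F → ∀ x, u (G.mul x Z) - u x ≤ K :=
    fun u F hu x => le_csSup hTb ⟨u, F, x, hu, rfl⟩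
  suffices hK0 : K ≤ 0 by
    have := hle u F hu x
    linarith
  by_contra hKpos
  push Not at hKpos
  -- the dilation
  have hj0 : (j : ℝ) ≠ 0 := by
    have : 0 < j := by omega
    exact_mod_cast this.ne'
  set t : ℝ := (2 : ℝ) ^ ((1 : ℝ) / j) with ht
  have htpos : 0 < t := Real.rpow_pos_of_pos two_pos _
  have htj : t ^ j = 2 := by
    rw [ht, ← Real.rpow_natCast, ← Real.rpow_mul two_pos.le, one_div, inv_mul_cancel₀ hj0,
      Real.rpow_one]
  have ht2 : t < 2 := by
    by_contra h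
    push Not at h
    have h1 : (2 : ℝ) ^ j ≤ t ^ j := pow_le_pow_left₀ two_pos.le h j
    rw [htj] at h1
    have h2 : (2 : ℝ) ^ 2 ≤ 2 ^ j := pow_le_pow_right₀ one_le_two hj
    norm_num at h2
    linarith
  have hdil : ∀ (u : Pt N → ℝ) (F : Pt N → Hv m), GS G A u F → ∀ x,
      u (G.mul x (G.mul Z Z)) - u x ≤ t * K := by
    intro u F hu x
    have h1 := hle _ _ (hu.scale htpos) (G.del t⁻¹ x)
    rw [G.del_mul htpos, G.del_del_inv htpos.ne', del_layer G hZ htj] at h1
    have h2 : t * (t⁻¹ * u (G.mul x (G.mul Z Z)) - t⁻¹ * u x) ≤ t * K :=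
      mul_le_mul_of_nonneg_left h1 htpos.le
    have h3 : t * (t⁻¹ * u (G.mul x (G.mul Z Z)) - t⁻¹ * u x) = u (G.mul x (G.mul Z Z)) - u x := by
      field_simp
    rwa [h3] at h2
  -- parameters
  set e : ℝ := (1 - t / 2) * K with he
  have hepos : 0 < e := mul_pos (by linarith) hKpos
  have hq0 : 0 < q := by linarith [hA.hq]
  have hqs : 0 < q - σ := by linarith [hA.hq, hA.hσ1]
  obtain ⟨C', hC', hstep⟩ := liou_step G q σ c C (G.ell Z + 1) hA.hq hA.hσ hA.hσ1 hA.hc hA.hC
    (by linarith)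
  set c₁ : ℝ := volume.real (G.B 0 1) with hc₁
  have hc₁pos : 0 < c₁ := by
    rw [hc₁, Measure.real]
    exact ENNReal.toReal_pos (G.vol_B_pos 0 one_pos).ne' (G.vol_B_lt_top 0 1).ne
  have hvol : ∀ r : ℝ, 0 < r → volume.real (G.B 0 r) = r ^ G.Q * c₁ := by
    intro r hr
    rw [Measure.real, G.vol_B 0 hr, ENNReal.toReal_mul, ENNReal.toReal_ofReal (by positivity)]
    rfl
  set s₀ : ℝ := e / (4 * (1 + e)) with hs₀
  have hs₀pos : 0 < s₀ := by positivity
  refine liou_iter G.Q q (q / (q - σ)) (G.ell Z + 1) e C' (s₀ ^ G.Q * c₁) c₁ ?_ ?_ (by linarith)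
    hepos hC' (by positivity) hc₁pos ?_
  · rw [lt_div_iff₀ hqs]
    linarith [hA.hσ]
  · rw [div_le_iff₀ hqs]
    nlinarith [hA.hq, hA.hσ1]
  intro n₀
  have hen₀ : 0 < e * 2⁻¹ ^ n₀ / 2 := by positivity
  obtain ⟨_, ⟨u₀, F₀, x₀, hu₀, rfl⟩, hx₀⟩ := exists_lt_of_lt_csSup hTn
    (show K - e * 2⁻¹ ^ n₀ / 2 < sSup T by rw [← hK]; linarith)
  -- translate
  have hv := hu₀.left x₀
  set v : Pt N → ℝ := fun y => u₀ (G.mul x₀ y) with hvdef
  have hv0 : K - e * 2⁻¹ ^ n₀ / 2 < v Z - v 0 := by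
    rw [hvdef]
    simp only
    rw [G.mul_zero]
    exact hx₀
  have hv1 := hv.left Z
  have hcomm : ∀ y, v (G.mul Z y) = v (G.mul y Z) := fun y => comm_inv G hinv hZ hv y
  have hbd : ∀ y, v (G.mul Z y) - v y ≤ K := by
    intro y
    rw [hcomm]
    exact hle _ _ hv y
  have hen : ∀ n : ℕ, 0 < e * 2⁻¹ ^ n ∧ e * 2⁻¹ ^ n ≤ e := by
    intro n
    refine ⟨by positivity, ?_⟩
    have : (2⁻¹ : ℝ) ^ n ≤ 1 := pow_le_one₀ (by norm_num) (by norm_num)
    nlinarith
  refine ⟨fun n R => volume.real ({y | K - e * 2⁻¹ ^ n < v (G.mul Z y) - v y} ∩ G.B 0 R),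
    ?_, ?_, ?_⟩
  · intro n R hR
    refine ⟨measureReal_nonneg, ?_⟩
    rw [mul_comm, ← hvol R hR]
    exact measureReal_mono inter_subset_right (G.vol_B_lt_top 0 R).ne
  · intro n _ R ρ hR hρ
    have h1 := hstep A hA _ _ _ _ hv1 hv Z (by linarith) K (e * 2⁻¹ ^ n) (hen n).1 hbd ?_ R ρ hR hρ
    · have h2 : e * 2⁻¹ ^ (n + 1) = e * 2⁻¹ ^ n / 2 := by
        rw [pow_succ]
        ring
      beta_reduce
      rw [h2]
      exact h1
    · intro y hy
      rw [hcomm] at hy
      rw [hcomm, G.assoc]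
      have h3 := hdil _ _ hv y
      have h4 := (hen n).2
      have h5 : e * 2 = 2 * K - t * K := by
        rw [he]
        ring
      linarith
  · -- the lower bound
    have hs : 0 < s₀ * 2⁻¹ ^ n₀ := by positivity
    have h1 : s₀ ^ G.Q * c₁ * (2⁻¹ ^ n₀) ^ G.Q = volume.real (G.B 0 (s₀ * 2⁻¹ ^ n₀)) := by
      rw [hvol _ hs, mul_pow]
      ring
    rw [h1]
    refine measureReal_mono ?_ (ne_top_of_le_ne_top (G.vol_B_lt_top 0 1).ne
      (measure_mono inter_subset_right))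
    intro y hy
    have hy1 : G.di 0 y < s₀ * 2⁻¹ ^ n₀ := hy
    have hp1 : (2⁻¹ : ℝ) ^ n₀ ≤ 1 := pow_le_one₀ (by norm_num) (by norm_num)
    have hp0 : (0 : ℝ) < 2⁻¹ ^ n₀ := by positivity
    have hs1 : s₀ ≤ 1 := by
      rw [hs₀, div_le_one (by positivity)]
      linarith
    have hs2 : s₀ ≤ e / 4 := by
      rw [hs₀]
      apply div_le_div_of_nonneg_left hepos.le (by norm_num)
      linarith
    have hd4 : G.di 0 y < e * 2⁻¹ ^ n₀ / 4 := by
      have : s₀ * 2⁻¹ ^ n₀ ≤ e / 4 * 2⁻¹ ^ n₀ := mul_le_mul_of_nonneg_right hs2 hp0.le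
      linarith
    refine ⟨?_, ?_⟩
    · have l1 := hv1.lip 0 y
      have l2 := hv.lip 0 y
      simp only [G.mul_zero] at l1
      have a1 := le_abs_self (v Z - v (G.mul Z y))
      have a2 := neg_abs_le (v 0 - v y)
      show K - e * 2⁻¹ ^ n₀ < v (G.mul Z y) - v y
      linarith
    · show G.di 0 y < 1
      have : s₀ * 2⁻¹ ^ n₀ ≤ 1 := by nlinarith
      linarith

theorem inv_step (G : Carnot N m) {q σ c C : ℝ} {A : Hv m → Hv m} (hA : MinS q σ c C A) {j : ℕ}
    (hj : 2 ≤ j) (hinv : InvGt G A j) : InvGt G A (j - 1) := by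
  intro u F hu x w hw
  have hZ : G.part j w ∈ layerOf G.deg j := G.part_mem j w
  have hZ' : -(G.part j w) ∈ layerOf G.deg j := (layerOf G.deg j).neg_mem hZ
  have h1 : u (G.mul x (G.part j w)) = u x := by
    apply le_antisymm (layer_step G hA hj hinv hZ hu x)
    have h2 := layer_step G hA hj hinv hZ' hu (G.mul x (G.part j w))
    rwa [G.mul_mul_neg] at h2
  have h3 : G.mul (G.part j w) (G.mul (-(G.part j w)) w) = w := G.mul_neg_mul _ _
  have h4 := hinv u F hu (G.mul x (G.part j w)) (G.mul (-(G.part j w)) w) ?_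
  · rw [G.assoc, h3, h1] at h4
    exact h4
  · intro i hi
    have h5 : G.mul (-(G.part j w)) w i = (-(G.part j w)) i + w i := by
      apply G.mul_apply_right
      intro k hk
      exact hw k (by omega)
    rw [h5, Pi.neg_apply]
    unfold Carnot.part
    by_cases h : G.deg i = j
    · rw [if_pos h]
      ring
    · rw [if_neg h, hw i (by omega)]
      ring

theorem inv_one (G : Carnot N m) {q σ c C : ℝ} {A : Hv m → Hv m} (hA : MinS q σ c C A) :
    InvGt G A 1 := by
  have h : ∀ n, n + 1 ≤ G.st → InvGt G A (G.st - n) := by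
    intro n
    induction n with
    | zero =>
      intro _ u F hu x w hw
      have hw0 : w = 0 := by
        funext i
        exact hw i (G.deg_le_st i)
      rw [hw0, G.mul_zero]
    | succ n ih =>
      intro hn
      have h1 := inv_step G hA (j := G.st - n) (by omega) (ih (by omega))
      have h2 : G.st - (n + 1) = G.st - n - 1 := by omega
      beta_reduce
      rw [h2]
      exact h1
  have h1 := G.one_le_st
  have h2 := h (G.st - 1) (by omega)
  have h3 : G.st - (G.st - 1) = 1 := by omega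
  rwa [h3] at h2

/-- Global Lipschitz solutions depend on the horizontal coordinates only. -/
theorem dep_hor (G : Carnot N m) {q σ c C : ℝ} {A : Hv m → Hv m} (hA : MinS q σ c C A)
    {u : Pt N → ℝ} {F : Pt N → Hv m} (hu : GS G A u F) (x y : Pt N)
    (hxy : ∀ k, x (G.hor k) = y (G.hor k)) : u x = u y := by
  have h := inv_one G hA u F hu x (G.mul (-x) y) ?_
  · rw [G.mul_neg_mul] at h
    exact h.symm
  · intro i hi
    have h1 : G.deg i = 1 := le_antisymm hi (G.deg_pos i)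
    obtain ⟨k, rfl⟩ := (G.hor_iff i).1 h1
    rw [G.mul_apply_hor, Pi.neg_apply, hxy k]
    ring

end Pool.Agent.CG
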