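import Pool.Agent.CG.H.Cacc
import Pool.Agent.CG.A.Cut

/-!
# CG-H-Step: one step of the iteration in Liouville I
PLAN.  `w = u₁ - u₂ ≤ K` everywhere, `f = max (w - (K - e)) 0`, so `0 ≤ f ≤ e`, and `f x > 0 → f (x h) = 0`
(hypothesis `hvan`).  For every `y`: `f y ≤ |f (y h) - f y|`.  `f ∈ HW^{1,q}` for every finite `q`
(GS.hw_top, HW.mono_exp, HW.sub, HW.posPart) so `HW.trans` with exponent `ENNReal.ofReal q` gives
`∫_{B_R} f^q ≤ l^q ∫_{B_{R+l}} ‖Xf‖^q ≤ l^q ∫ η² ‖Xf‖^q`, `η` a cut-off (`exists_cutoff`) equal to `1` on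
`B 0 (R + l)`, supported in `B 0 (R + l + ρ)`, `‖grad η‖ ≤ Cη / ρ`; then `cacc_diff` and
`(f ‖grad η‖)^r ≤ (e Cη / ρ)^r 1_{w > K - e} 1_{B 0 (R + l + ρ)}`, `r = q / (q - σ)`.
On the left `(e/2)^q vol ({w > K - e/2} ∩ B_R) ≤ ∫_{B_R} f^q`.
So `C'' = C' Cη^r 2^q l^q`, and `vol S_{e/2} ≤ C'' e^{r - q} ρ^{-r} vol S_e`.
-/

set_option autoImplicit false

namespace Pool.Agent.CG

open MeasureTheory Set Filter Topology
open scoped ContDiff ENNReal

variable {N m : ℕ}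

private theorem step_grad_zero (G : Carnot N m) {η : Pt N → ℝ} (hη : ContDiff ℝ ∞ η) {x : Pt N}
    (hx : x ∉ tsupport η) : G.grad η x = 0 := by
  have h1 : fderiv ℝ η x = 0 := by
    by_contra h
    exact hx (support_fderiv_subset ℝ h)
  ext k
  change G.X k η x = 0
  rw [G.X_eq ((hη.differentiable (by simp)) x), h1]
  rfl

/-- the gradient term of the step -/
private theorem step_grad (G : Carnot N m) {r a b V : ℝ} (hr : 0 < r) (ha : 0 ≤ a) (hb : 0 ≤ b)
    {f g : Pt N → ℝ} (S B : Set (Pt N)) (hS : MeasurableSet (S ∩ B)) (hfin : volume (S ∩ B) < ⊤)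
    (hf0 : ∀ x, 0 ≤ f x) (hg0 : ∀ x, 0 ≤ g x) (hfa : ∀ x, f x ≤ a) (hgb : ∀ x, g x ≤ b)
    (hfS : ∀ x, x ∉ S → f x = 0) (hgB : ∀ x, x ∉ B → g x = 0) (hV : volume.real (S ∩ B) = V) :
    ∫ x, (f x * g x) ^ r ≤ (a * b) ^ r * V := by
  have h1 : ∀ x, (f x * g x) ^ r ≤ (S ∩ B).indicator (fun _ => (a * b) ^ r) x := by
    intro x
    by_cases hx : x ∈ S ∩ B
    · rw [Set.indicator_of_mem hx]
      exact Real.rpow_le_rpow (mul_nonneg (hf0 x) (hg0 x))
        (mul_le_mul (hfa x) (hgb x) (hg0 x) ha) hr.le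
    · rw [Set.indicator_of_notMem hx]
      have h2 : f x * g x = 0 := by
        by_cases hxS : x ∈ S
        · rw [hgB x (fun hB => hx ⟨hxS, hB⟩), mul_zero]
        · rw [hfS x hxS, zero_mul]
      rw [h2, Real.zero_rpow hr.ne']
  have h3 : Integrable ((S ∩ B).indicator (fun _ : Pt N => (a * b) ^ r)) volume := by
    rw [integrable_indicator_iff hS]
    exact integrableOn_const hfin.ne
  have h4 := integral_mono_of_nonneg (μ := (volume : Measure (Pt N)))
    (Eventually.of_forall fun x => Real.rpow_nonneg (mul_nonneg (hf0 x) (hg0 x)) r) h3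
    (Eventually.of_forall h1)
  rw [integral_indicator_const _ hS, hV, smul_eq_mul, mul_comm] at h4
  exact h4

private theorem step_int {G : Carnot N m} {A : Hv m → Hv m} {u₁ u₂ : Pt N → ℝ}
    {F₁ F₂ : Pt N → Hv m} (h₁ : GS G A u₁ F₁) (h₂ : GS G A u₂ F₂) {q : ℝ} (hq : 0 ≤ q) (k : ℝ)
    {η : Pt N → ℝ} (hη : Test univ η) (hη0 : ∀ x, 0 ≤ η x) (hη1 : ∀ x, η x ≤ 1) :
    Integrable (fun x => η x ^ 2 * (if k < u₁ x - u₂ x then ‖F₁ x - F₂ x‖ ^ q else 0)) volume := by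
  have hT : IsCompact (tsupport η) := hη.cpt
  rw [← integrableOn_iff_integrable_of_support_subset (s := tsupport η)]
  · haveI : IsFiniteMeasure (volume.restrict (tsupport η)) :=
      ⟨by rw [Measure.restrict_apply_univ]; exact hT.measure_lt_top⟩
    have hm1 : AEStronglyMeasurable (fun x => F₁ x - F₂ x) (volume.restrict (tsupport η)) :=
      (h₁.sol.toHW.lqg _ hT (subset_univ _)).aestronglyMeasurable.sub
        (h₂.sol.toHW.lqg _ hT (subset_univ _)).aestronglyMeasurable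
    have hm2 : AEStronglyMeasurable (fun x => ‖F₁ x - F₂ x‖ ^ q) (volume.restrict (tsupport η)) :=
      (hm1.norm.aemeasurable.pow_const q).aestronglyMeasurable
    have hS : MeasurableSet {x | k < u₁ x - u₂ x} :=
      (isOpen_lt continuous_const (h₁.cont.sub h₂.cont)).measurableSet
    have hm3 := hm2.indicator hS
    have hm4 : AEStronglyMeasurable (fun x => η x ^ 2 *
        (if k < u₁ x - u₂ x then ‖F₁ x - F₂ x‖ ^ q else 0)) (volume.restrict (tsupport η)) := by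
      have h5 : (fun x => η x ^ 2 * (if k < u₁ x - u₂ x then ‖F₁ x - F₂ x‖ ^ q else 0)) =
          fun x => η x ^ 2 * ({x | k < u₁ x - u₂ x}.indicator (fun x => ‖F₁ x - F₂ x‖ ^ q)) x := by
        funext x
        rw [Set.indicator_apply]
        rfl
      rw [h5]
      exact (hη.smooth.continuous.pow 2).aestronglyMeasurable.mul hm3
    refine Integrable.of_bound hm4 (2 ^ q) ?_
    have hb : ∀ᵐ x ∂(volume.restrict (tsupport η)), ‖F₁ x - F₂ x‖ ≤ 2 := by
      filter_upwards [ae_restrict_of_ae h₁.bd, ae_restrict_of_ae h₂.bd] with x hx1 hx2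
      exact (norm_sub_le _ _).trans (by linarith)
    filter_upwards [hb] with x hx
    have h6 : (0 : ℝ) ≤ (if k < u₁ x - u₂ x then ‖F₁ x - F₂ x‖ ^ q else 0) := by
      split_ifs
      · exact Real.rpow_nonneg (norm_nonneg _) _
      · exact le_rfl
    have h7 : (if k < u₁ x - u₂ x then ‖F₁ x - F₂ x‖ ^ q else 0) ≤ (2 : ℝ) ^ q := by
      split_ifs
      · exact Real.rpow_le_rpow (norm_nonneg _) hx hq
      · positivity
    rw [Real.norm_eq_abs, abs_of_nonneg (mul_nonneg (sq_nonneg _) h6)]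
    have h8 : η x ^ 2 ≤ 1 := pow_le_one₀ (hη0 x) (hη1 x)
    calc η x ^ 2 * (if k < u₁ x - u₂ x then ‖F₁ x - F₂ x‖ ^ q else 0) ≤ 1 * 2 ^ q :=
          mul_le_mul h8 h7 h6 zero_le_one
      _ = 2 ^ q := one_mul _
  · intro x hx
    apply subset_tsupport η
    intro h0
    apply hx
    simp [h0]

theorem liou_step (G : Carnot N m) (q σ c C l : ℝ) (hq : 2 ≤ q) (hσ : 0 < σ) (hσ1 : σ ≤ 1) (hc : 0 < c)
    (hC : 0 ≤ C) (hl : 0 < l) :
    ∃ C' : ℝ, 0 < C' ∧ ∀ (A : Hv m → Hv m), MinS q σ c C A →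
      ∀ (u₁ u₂ : Pt N → ℝ) (F₁ F₂ : Pt N → Hv m), GS G A u₁ F₁ → GS G A u₂ F₂ →
      ∀ (h : Pt N), G.ell h < l → ∀ (K e : ℝ), 0 < e → (∀ x, u₁ x - u₂ x ≤ K) →
      (∀ x, K - e < u₁ x - u₂ x → u₁ (G.mul x h) - u₂ (G.mul x h) ≤ K - e) →
      ∀ R ρ : ℝ, 0 < R → 0 < ρ →
        volume.real ({x | K - e / 2 < u₁ x - u₂ x} ∩ G.B 0 R) ≤
          C' * (e ^ (q / (q - σ) - q) * ρ ^ (-(q / (q - σ)))) *
            volume.real ({x | K - e < u₁ x - u₂ x} ∩ G.B 0 (R + l + ρ)) := by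
  obtain ⟨Cη, hCη, hcut⟩ := G.exists_cutoff
  obtain ⟨C0, hC0, hcacc⟩ := cacc_diff (m := m) q σ c C hq hσ hσ1 hc hC
  set r : ℝ := q / (q - σ) with hr
  have hq0 : 0 < q := by linarith
  have hr0 : 0 < r := div_pos hq0 (by linarith)
  refine ⟨2 ^ q * l ^ q * C0 * Cη ^ r + 1, by positivity, ?_⟩
  intro A hA u₁ u₂ F₁ F₂ h₁ h₂ h hh K e he hK hvan R ρ hR hρ
  have hwc : Continuous fun x => u₁ x - u₂ x := h₁.cont.sub h₂.cont
  set f : Pt N → ℝ := fun x => max (u₁ x - u₂ x - (K - e)) 0 with hf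
  set Df : Pt N → Hv m := fun x => if K - e < u₁ x - u₂ x then F₁ x - F₂ x else 0 with hDf
  have hHW0 : HW G ⊤ univ f Df :=
    (HW.sub le_top h₁.hw_top h₂.hw_top).posPart isOpen_univ le_top (K - e)
  set p : ℝ≥0∞ := ENNReal.ofReal q with hp
  have hp1 : 1 ≤ p := by
    rw [hp, ← ENNReal.ofReal_one]
    exact ENNReal.ofReal_le_ofReal (by linarith)
  have hpt : p ≠ ⊤ := ENNReal.ofReal_ne_top
  have hp0 : p ≠ 0 := (zero_lt_one.trans_le hp1).ne'
  have hpq : p.toReal = q := ENNReal.toReal_ofReal hq0.le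
  have hHW : HW G p univ f Df := hHW0.mono_exp le_top
  have hfc : Continuous f := (hwc.sub continuous_const).max continuous_const
  -- cut-off
  obtain ⟨η, hη, hη0, hη1, hηeq, hηg⟩ := hcut 0 (R + l) (R + l + ρ) (by linarith) (by linarith)
  have hηu : Test univ η := ⟨hη.smooth, hη.cpt, subset_univ _⟩
  have hca := hcacc N G A hA u₁ u₂ F₁ F₂ h₁ h₂ (K - e) η hηu hη0 hη1
  set S : Set (Pt N) := {x | K - e < u₁ x - u₂ x} with hS
  set S2 : Set (Pt N) := {x | K - e / 2 < u₁ x - u₂ x} with hS2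
  have hSo : IsOpen S := isOpen_lt continuous_const hwc
  have hSo2 : IsOpen S2 := isOpen_lt continuous_const hwc
  set V : ℝ := volume.real (S ∩ G.B 0 (R + l + ρ)) with hV
  -- gradient term
  have hgr : ∫ x, (max (u₁ x - u₂ x - (K - e)) 0 * ‖G.grad η x‖) ^ r ≤ (e * (Cη / ρ)) ^ r * V := by
    refine step_grad G hr0 he.le (by positivity) S (G.B 0 (R + l + ρ))
      (hSo.inter (G.isOpen_B _ _)).measurableSet
      (lt_of_le_of_lt (measure_mono inter_subset_right) (G.vol_B_lt_top _ _))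
      (fun x => le_max_right _ _) (fun x => norm_nonneg _) (fun x => ?_) (fun x => ?_)
      (fun x hx => ?_) (fun x hx => ?_) rfl
    · exact max_le (by have := hK x; linarith) he.le
    · have h1 := hηg x
      rwa [show R + l + ρ - (R + l) = ρ by ring] at h1
    · exact max_eq_right (by have : ¬ (K - e < u₁ x - u₂ x) := hx; linarith)
    · rw [step_grad_zero G hη.smooth (fun h => hx (hη.sub h)), norm_zero]
  -- integral of the gradient
  set g : Pt N → ℝ := fun x => η x ^ 2 * (if K - e < u₁ x - u₂ x then ‖F₁ x - F₂ x‖ ^ q else 0)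
    with hg
  have hgi : Integrable g volume := step_int h₁ h₂ hq0.le (K - e) hηu hη0 hη1
  have hg0 : ∀ x, 0 ≤ g x := by
    intro x
    refine mul_nonneg (sq_nonneg _) ?_
    split_ifs
    · exact Real.rpow_nonneg (norm_nonneg _) _
    · exact le_rfl
  have hI : ∫ x, g x ≤ C0 * ((e * (Cη / ρ)) ^ r * V) :=
    hca.trans (mul_le_mul_of_nonneg_left hgr hC0)
  have hup : eLpNorm Df p (volume.restrict (G.B 0 (R + l))) ^ q ≤
      ENNReal.ofReal (C0 * ((e * (Cη / ρ)) ^ r * V)) := by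
    rw [eLpNorm_eq_lintegral_rpow_enorm_toReal hp0 hpt, hpq, ← ENNReal.rpow_mul,
      one_div_mul_cancel hq0.ne', ENNReal.rpow_one]
    have h1 : ∫⁻ x in G.B 0 (R + l), ‖Df x‖ₑ ^ q = ∫⁻ x in G.B 0 (R + l), ENNReal.ofReal (g x) := by
      refine setLIntegral_congr_fun (G.isOpen_B _ _).measurableSet fun x hx => ?_
      simp only [hg, hDf]
      rw [hηeq x hx, one_pow, one_mul]
      split_ifs
      · rw [← ofReal_norm_eq_enorm, ENNReal.ofReal_rpow_of_nonneg (norm_nonneg _) hq0.le]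
      · rw [enorm_zero, ENNReal.zero_rpow_of_pos hq0, ENNReal.ofReal_zero]
    rw [h1]
    refine (setLIntegral_le_lintegral _ _).trans ?_
    rw [← ofReal_integral_eq_lintegral_ofReal hgi (Eventually.of_forall hg0)]
    exact ENNReal.ofReal_le_ofReal hI
  -- translation
  have htr := HW.trans hp1 hpt hHW 0 h (R := R) hh
  have hle : eLpNorm f p (volume.restrict (G.B 0 R)) ≤
      ENNReal.ofReal l * eLpNorm Df p (volume.restrict (G.B 0 (R + l))) := by
    refine le_trans (eLpNorm_mono fun x => ?_) htr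
    by_cases hx : K - e < u₁ x - u₂ x
    · have h1 : f (G.mul x h) = 0 := max_eq_right (by have := hvan x hx; linarith)
      rw [h1, zero_sub, norm_neg]
    · have h1 : f x = 0 := max_eq_right (by linarith)
      rw [h1, norm_zero]
      exact norm_nonneg _
  have hch := mul_meas_ge_le_pow_eLpNorm' (volume.restrict (G.B 0 R)) hp0 hpt
    hfc.aestronglyMeasurable (ENNReal.ofReal (e / 2))
  rw [hpq] at hch
  have hsub : S2 ∩ G.B 0 R ⊆ {x | ENNReal.ofReal (e / 2) ≤ ‖f x‖ₑ} ∩ G.B 0 R := by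
    rintro x ⟨hx, hx'⟩
    refine ⟨?_, hx'⟩
    have hx2 : K - e / 2 < u₁ x - u₂ x := hx
    have h1 : e / 2 ≤ f x := (by linarith : e / 2 ≤ u₁ x - u₂ x - (K - e)).trans (le_max_left _ _)
    change ENNReal.ofReal (e / 2) ≤ ‖f x‖ₑ
    rw [← ofReal_norm_eq_enorm]
    exact ENNReal.ofReal_le_ofReal (h1.trans (Real.le_norm_self _))
  have hvol : volume (S2 ∩ G.B 0 R) ≤
      (volume.restrict (G.B 0 R)) {x | ENNReal.ofReal (e / 2) ≤ ‖f x‖ₑ} := by
    rw [Measure.restrict_apply' (G.isOpen_B _ _).measurableSet]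
    exact measure_mono hsub
  have hfin : volume (S2 ∩ G.B 0 R) ≠ ⊤ :=
    (lt_of_le_of_lt (measure_mono inter_subset_right) (G.vol_B_lt_top _ _)).ne
  have hV0 : 0 ≤ V := measureReal_nonneg
  have hE : ENNReal.ofReal ((e / 2) ^ q * volume.real (S2 ∩ G.B 0 R)) ≤
      ENNReal.ofReal (l ^ q * (C0 * ((e * (Cη / ρ)) ^ r * V))) := by
    rw [ENNReal.ofReal_mul (by positivity), ofReal_measureReal hfin,
      ENNReal.ofReal_mul (by positivity), ← ENNReal.ofReal_rpow_of_nonneg (by positivity) hq0.le,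
      ← ENNReal.ofReal_rpow_of_nonneg hl.le hq0.le]
    calc ENNReal.ofReal (e / 2) ^ q * volume (S2 ∩ G.B 0 R)
        ≤ ENNReal.ofReal (e / 2) ^ q *
          (volume.restrict (G.B 0 R)) {x | ENNReal.ofReal (e / 2) ≤ ‖f x‖ₑ} := by gcongr
      _ ≤ eLpNorm f p (volume.restrict (G.B 0 R)) ^ q := hch
      _ ≤ (ENNReal.ofReal l * eLpNorm Df p (volume.restrict (G.B 0 (R + l)))) ^ q :=
        ENNReal.rpow_le_rpow hle hq0.le
      _ = ENNReal.ofReal l ^ q * eLpNorm Df p (volume.restrict (G.B 0 (R + l))) ^ q :=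
        ENNReal.mul_rpow_of_nonneg _ _ hq0.le
      _ ≤ ENNReal.ofReal l ^ q * ENNReal.ofReal (C0 * ((e * (Cη / ρ)) ^ r * V)) := by gcongr
  have hR1 : (e / 2) ^ q * volume.real (S2 ∩ G.B 0 R) ≤
      l ^ q * (C0 * ((e * (Cη / ρ)) ^ r * V)) :=
    (ENNReal.ofReal_le_ofReal_iff (by positivity)).1 hE
  have he1 : (e / 2) ^ q = e ^ q * (2 ^ q)⁻¹ := by
    rw [Real.div_rpow he.le zero_le_two, div_eq_mul_inv]
  have he2 : (e * (Cη / ρ)) ^ r = e ^ r * (Cη ^ r * ρ ^ (-r)) := by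
    rw [Real.mul_rpow he.le (by positivity), Real.div_rpow hCη.le hρ.le, Real.rpow_neg hρ.le,
      div_eq_mul_inv]
  have he3 : e ^ (r - q) = e ^ r / e ^ q := Real.rpow_sub he r q
  have heq : 0 < e ^ q := Real.rpow_pos_of_pos he q
  have h2q : (0 : ℝ) < 2 ^ q := Real.rpow_pos_of_pos two_pos q
  have hfinal : volume.real (S2 ∩ G.B 0 R) ≤
      (2 ^ q * l ^ q * C0 * Cη ^ r) * (e ^ (r - q) * ρ ^ (-r)) * V := by
    rw [he1, he2] at hR1
    have h3 : volume.real (S2 ∩ G.B 0 R) ≤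
        (e ^ q * (2 ^ q)⁻¹)⁻¹ * (l ^ q * (C0 * (e ^ r * (Cη ^ r * ρ ^ (-r)) * V))) := by
      rw [← div_eq_inv_mul, le_div_iff₀' (by positivity)]
      exact hR1
    refine h3.trans (le_of_eq ?_)
    rw [he3]
    field_simp
  refine hfinal.trans ?_
  have h4 : 0 ≤ e ^ (r - q) * ρ ^ (-r) * V := by positivity
  nlinarith [h4]

end Pool.Agent.CG
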